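import Pool.Agent.Helper50.PE.Defs

/-!
Basic composition formula, general minors, convolutions, the diagonal lemma.
-/

set_option autoImplicit false

namespace Pool.Agent.Helper50.PE

open Finset

/-- basic composition formula, `2 × 2` minors -/
theorem cb {ι : Type*} [LinearOrder ι] (s : Finset ι) (f f' g g' : ι → ℝ)
    (hf : ∀ x ∈ s, ∀ y ∈ s, x ≤ y → f y * f' x ≤ f x * f' y)
    (hg : ∀ x ∈ s, ∀ y ∈ s, x ≤ y → g y * g' x ≤ g x * g' y) :
    (∑ x ∈ s, f x * g' x) * (∑ x ∈ s, f' x * g x) ≤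
      (∑ x ∈ s, f x * g x) * (∑ x ∈ s, f' x * g' x) := by
  have h : 0 ≤ ∑ x ∈ s, ∑ y ∈ s,
      (f x * f' y - f y * f' x) * (g x * g' y - g y * g' x) := by
    refine sum_nonneg fun x hx => sum_nonneg fun y hy => ?_
    rcases le_total x y with hxy | hxy
    · exact mul_nonneg (sub_nonneg.2 (hf x hx y hy hxy)) (sub_nonneg.2 (hg x hx y hy hxy))
    · exact mul_nonneg_of_nonpos_of_nonpos
        (sub_nonpos.2 (hf y hy x hx hxy)) (sub_nonpos.2 (hg y hy x hx hxy))
  have e : ∑ x ∈ s, ∑ y ∈ s,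
      (f x * f' y - f y * f' x) * (g x * g' y - g y * g' x) =
      2 * ((∑ x ∈ s, f x * g x) * (∑ x ∈ s, f' x * g' x)) -
      2 * ((∑ x ∈ s, f x * g' x) * (∑ x ∈ s, f' x * g x)) := by
    have e1 : ∀ x y, (f x * f' y - f y * f' x) * (g x * g' y - g y * g' x) =
        (f x * g x) * (f' y * g' y) - (f x * g' x) * (f' y * g y) -
          (f' x * g x) * (f y * g' y) + (f' x * g' x) * (f y * g y) := fun x y => by ring
    simp only [e1, sum_add_distrib, sum_sub_distrib, ← mul_sum, ← sum_mul]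
    ring
  linarith

/-- basic composition formula with a reversed factor -/
theorem cb_rev {ι : Type*} [LinearOrder ι] (s : Finset ι) (f f' g g' : ι → ℝ)
    (hf : ∀ x ∈ s, ∀ y ∈ s, x ≤ y → f y * f' x ≤ f x * f' y)
    (hg : ∀ x ∈ s, ∀ y ∈ s, x ≤ y → g x * g' y ≤ g y * g' x) :
    (∑ x ∈ s, f x * g x) * (∑ x ∈ s, f' x * g' x) ≤
      (∑ x ∈ s, f x * g' x) * (∑ x ∈ s, f' x * g x) := by
  have := cb s f f' g' g hf (fun x hx y hy hxy => by
    have := hg x hx y hy hxy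
    linarith)
  linarith

theorem SLC.step {a : ℤ → ℝ} (h : SLC a) {i j : ℤ} (hij : i ≤ j) :
    a (i - 1) * a (j + 1) ≤ a i * a j := h.2 i j hij

/-- general minors of a strongly log-concave sequence -/
theorem SLC.minor {a : ℤ → ℝ} (h : SLC a) (n : ℕ) : ∀ i j : ℤ, i ≤ j →
    a (i - n) * a (j + n) ≤ a i * a j := by
  induction n with
  | zero => intro i j _; simp
  | succ n ih =>
    intro i j hij
    have h1 := h.2 (i - n) (j + n) (by omega)
    have e1 : i - (n : ℤ) - 1 = i - ((n + 1 : ℕ) : ℤ) := by push_cast; ring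
    have e2 : j + (n : ℤ) + 1 = j + ((n + 1 : ℕ) : ℤ) := by push_cast; ring
    rw [e1, e2] at h1
    exact h1.trans (ih i j hij)

/-- general minors: the product is larger for the inner pair -/
theorem SLC.minor' {a : ℤ → ℝ} (h : SLC a) {x y i j : ℤ} (h1 : x ≤ i) (h2 : x ≤ j)
    (h3 : x + y = i + j) : a x * a y ≤ a i * a j := by
  rcases le_total i j with hij | hij
  · have := h.minor (i - x).toNat i j hij
    have e : (((i - x).toNat : ℕ) : ℤ) = i - x := Int.toNat_of_nonneg (by omega)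
    rw [e] at this
    have e1 : i - (i - x) = x := by ring
    have e2 : j + (i - x) = y := by omega
    rwa [e1, e2] at this
  · have := h.minor (j - x).toNat j i hij
    have e : (((j - x).toNat : ℕ) : ℤ) = j - x := Int.toNat_of_nonneg (by omega)
    rw [e] at this
    have e1 : j - (j - x) = x := by ring
    have e2 : i + (j - x) = y := by omega
    rw [e1, e2] at this
    linarith [mul_comm (a i) (a j)]

/-- two-sided extension by zero -/
noncomputable def toZ (e : ℕ → ℝ) (z : ℤ) : ℝ := if 0 ≤ z then e z.toNat else 0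

theorem toZ_nat (e : ℕ → ℝ) (n : ℕ) : toZ e (n : ℤ) = e n := by
  unfold toZ
  rw [if_pos (Int.natCast_nonneg n), Int.toNat_natCast]

theorem toZ_neg (e : ℕ → ℝ) {z : ℤ} (hz : z < 0) : toZ e z = 0 := by
  unfold toZ
  rw [if_neg (not_le.2 hz)]

theorem SLN.toZ {e : ℕ → ℝ} (h : SLN e) : SLC (toZ e) := by
  have hn : ∀ z, 0 ≤ PE.toZ e z := by
    intro z
    unfold PE.toZ
    split
    · exact h.1 _
    · exact le_rfl
  refine ⟨hn, ?_⟩
  intro i j hij
  rcases lt_or_ge (i - 1) 0 with hi | hi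
  · rw [toZ_neg e hi, zero_mul]
    exact mul_nonneg (hn _) (hn _)
  · obtain ⟨m, hm⟩ := Int.eq_ofNat_of_zero_le hi
    obtain ⟨n, hn'⟩ := Int.eq_ofNat_of_zero_le (show 0 ≤ j - 1 by omega)
    have e1 : i = ((m + 1 : ℕ) : ℤ) := by push_cast; omega
    have e2 : j = ((n + 1 : ℕ) : ℤ) := by push_cast; omega
    have e3 : i - 1 = ((m : ℕ) : ℤ) := hm
    have e4 : j + 1 = ((n + 2 : ℕ) : ℤ) := by push_cast; omega
    rw [e3, e4, e1, e2, toZ_nat, toZ_nat, toZ_nat, toZ_nat]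
    exact h.2 m n (by omega)

theorem SLC.toN {a : ℤ → ℝ} (h : SLC a) (c : ℤ) : SLN (fun n : ℕ => a (c + n)) := by
  refine ⟨fun i => h.1 _, fun i j hij => ?_⟩
  have := h.2 (c + i + 1) (c + j + 1) (by omega)
  have e1 : c + (i : ℤ) + 1 - 1 = c + i := by ring
  have e2 : c + (j : ℤ) + 1 + 1 = c + ((j + 2 : ℕ) : ℤ) := by push_cast; ring
  have e3 : c + (i : ℤ) + 1 = c + ((i + 1 : ℕ) : ℤ) := by push_cast; ring
  have e4 : c + (j : ℤ) + 1 = c + ((j + 1 : ℕ) : ℤ) := by push_cast; ring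
  rw [e1, e2, e3, e4] at this
  exact this

theorem SLC.shift {a : ℤ → ℝ} (h : SLC a) (c : ℤ) : SLC (fun k => a (k + c)) := by
  refine ⟨fun i => h.1 _, fun i j hij => ?_⟩
  exact h.minor' (by omega) (by omega) (by omega)

theorem SLC.reflect {a : ℤ → ℝ} (h : SLC a) (c : ℤ) : SLC (fun k => a (c - k)) := by
  refine ⟨fun i => h.1 _, fun i j hij => ?_⟩
  have : a (c - (j + 1)) * a (c - (i - 1)) ≤ a (c - i) * a (c - j) :=
    h.minor' (by omega) (by omega) (by omega)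
  linarith [mul_comm (a (c - (j + 1))) (a (c - (i - 1)))]

theorem SLC.smul {a : ℤ → ℝ} (h : SLC a) {x : ℝ} (hx : 0 ≤ x) : SLC (fun k => x * a k) := by
  refine ⟨fun i => mul_nonneg hx (h.1 _), fun i j hij => ?_⟩
  have := mul_le_mul_of_nonneg_left (h.2 i j hij) (mul_nonneg hx hx)
  nlinarith [this]

/-- convolution with a finite strongly log-concave sequence -/
theorem SLC.conv {a : ℤ → ℝ} (ha : SLC a) {e : ℤ → ℝ} (he : SLC e) (q : ℕ)
    (h0 : ∀ z : ℤ, z < 0 → e z = 0) (hq : ∀ z : ℤ, (q : ℤ) < z → e z = 0) :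
    SLC (fun k : ℤ => ∑ s ∈ range (q + 1), a (k - s) * e s) := by
  refine ⟨fun k => sum_nonneg fun s _ => mul_nonneg (ha.1 _) (he.1 _), ?_⟩
  intro i j hij
  -- the two ways of writing the sums
  have A : ∀ k : ℤ, ∑ s ∈ range (q + 1), a (k - s) * e s =
      ∑ s ∈ range (q + 2), a (k - s) * e s := by
    intro k
    rw [sum_range_succ _ (q + 1), hq ((q + 1 : ℕ) : ℤ) (by push_cast; omega), mul_zero, add_zero]
  have B : ∀ k : ℤ, ∑ s ∈ range (q + 1), a (k - s) * e s =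
      ∑ s ∈ range (q + 2), a (k + 1 - s) * e (s - 1) := by
    intro k
    rw [sum_range_succ' _ (q + 1)]
    rw [h0 (((0 : ℕ) : ℤ) - 1) (by norm_num), mul_zero, add_zero]
    refine sum_congr rfl fun s _ => ?_
    have e1 : k + 1 - ((s + 1 : ℕ) : ℤ) = k - s := by push_cast; ring
    have e2 : ((s + 1 : ℕ) : ℤ) - 1 = s := by push_cast; ring
    rw [e1, e2]
  have key := cb (range (q + 2)) (fun s : ℕ => a (i - s)) (fun s : ℕ => a (j + 1 - s))
    (fun s : ℕ => e s) (fun s : ℕ => e (s - 1))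
    (fun x _ y _ hxy => by
      have : a (i - y) * a (j + 1 - x) ≤ a (i - x) * a (j + 1 - y) :=
        ha.minor' (by omega) (by omega) (by omega)
      exact this)
    (fun x _ y _ hxy => by
      have h1 : e ((x : ℤ) - 1) * e (y : ℤ) ≤ e (x : ℤ) * e ((y : ℤ) - 1) :=
        he.minor' (by omega) (by omega) (by omega)
      show e (y : ℤ) * e ((x : ℤ) - 1) ≤ e (x : ℤ) * e ((y : ℤ) - 1)
      linarith [mul_comm (e ((x : ℤ) - 1)) (e (y : ℤ))])
  have hi := B (i - 1)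
  have hj := A (j + 1)
  have hi' := A i
  have hj' := B j
  have e1 : ∀ s : ℕ, i - 1 + 1 - (s : ℤ) = i - s := fun s => by ring
  simp only [e1] at hi
  show (∑ s ∈ range (q + 1), a (i - 1 - s) * e s) * (∑ s ∈ range (q + 1), a (j + 1 - s) * e s) ≤
    (∑ s ∈ range (q + 1), a (i - s) * e s) * (∑ s ∈ range (q + 1), a (j - s) * e s)
  rw [hi, hj, hi', hj']
  exact key

/-- an array that is strongly log-concave in each variable and log-submodular is strongly
log-concave on the diagonal -/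
theorem diag {m : ℤ → ℤ → ℝ} (h0 : ∀ k l, 0 ≤ m k l)
    (hk : ∀ l, SLC (fun k => m k l)) (hl : ∀ k, SLC (fun l => m k l))
    (hr : ∀ k k' l l', k ≤ k' → l ≤ l' → m k l * m k' l' ≤ m k l' * m k' l) :
    SLC (fun k => m k k) := by
  refine ⟨fun k => h0 k k, ?_⟩
  intro i j hij
  show m (i - 1) (i - 1) * m (j + 1) (j + 1) ≤ m i i * m j j
  by_cases hz : m (i - 1) (i - 1) * m (j + 1) (j + 1) = 0
  · rw [hz]; exact mul_nonneg (h0 _ _) (h0 _ _)
  have hpos : 0 < m (i - 1) (i - 1) * m (j + 1) (j + 1) :=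
    lt_of_le_of_ne (mul_nonneg (h0 _ _) (h0 _ _)) (Ne.symm hz)
  have p1 : 0 < m (i - 1) (i - 1) := pos_of_mul_pos_left hpos (h0 _ _)
  have p2 : 0 < m (j + 1) (j + 1) := pos_of_mul_pos_right hpos (h0 _ _)
  -- the five inequalities
  have ine := hr (i - 1) (j + 1) (i - 1) (j + 1) (by omega) (by omega)
  have ina : m (i - 1) (j + 1) * m (j + 1) (j + 1) ≤ m i (j + 1) * m j (j + 1) := (hk (j + 1)).2 i j hij
  have inb := hr (i - 1) i i (j + 1) (by omega) (by omega)
  have inc := hr (i - 1) j j (j + 1) (by omega) (by omega)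
  have ind : m (i - 1) (i - 1) * m (i - 1) (j + 1) ≤ m (i - 1) i * m (i - 1) j := (hl (i - 1)).2 i j hij
  have p3 : 0 < m (i - 1) (j + 1) :=
    pos_of_mul_pos_left (lt_of_lt_of_le hpos ine) (h0 _ _)
  have p4 : 0 < m (i - 1) i * m (i - 1) j := lt_of_lt_of_le (mul_pos p1 p3) ind
  have p5 : 0 < m i (j + 1) * m j (j + 1) := lt_of_lt_of_le (mul_pos p3 p2) ina
  have p6 : 0 < m (i - 1) i := pos_of_mul_pos_left p4 (h0 _ _)
  have p7 : 0 < m (i - 1) j := pos_of_mul_pos_right p4 (h0 _ _)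
  have p8 : 0 < m i (j + 1) := pos_of_mul_pos_left p5 (h0 _ _)
  have p9 : 0 < m j (j + 1) := pos_of_mul_pos_right p5 (h0 _ _)
  -- multiply
  have P : 0 < m (i - 1) (j + 1) ^ 2 * m i (j + 1) * m j (j + 1) * m (i - 1) i * m (i - 1) j := by
    positivity
  have q1 : (m (i - 1) (j + 1) * m (j + 1) (j + 1)) * (m (i - 1) i * m i (j + 1)) ≤
      (m i (j + 1) * m j (j + 1)) * (m (i - 1) (j + 1) * m i i) :=
    mul_le_mul ina inb (mul_nonneg (h0 _ _) (h0 _ _)) (mul_nonneg (h0 _ _) (h0 _ _))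
  have q2 : (m (i - 1) j * m j (j + 1)) * (m (i - 1) (i - 1) * m (i - 1) (j + 1)) ≤
      (m (i - 1) (j + 1) * m j j) * (m (i - 1) i * m (i - 1) j) :=
    mul_le_mul inc ind (mul_nonneg (h0 _ _) (h0 _ _)) (mul_nonneg (h0 _ _) (h0 _ _))
  have q3 := mul_le_mul q1 q2 (by
      refine mul_nonneg (mul_nonneg (h0 _ _) (h0 _ _)) (mul_nonneg (h0 _ _) (h0 _ _)))
    (mul_nonneg (mul_nonneg (h0 _ _) (h0 _ _)) (mul_nonneg (h0 _ _) (h0 _ _)))
  have q4 : (m (i - 1) (i - 1) * m (j + 1) (j + 1)) *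
      (m (i - 1) (j + 1) ^ 2 * m i (j + 1) * m j (j + 1) * m (i - 1) i * m (i - 1) j) ≤
      (m i i * m j j) *
      (m (i - 1) (j + 1) ^ 2 * m i (j + 1) * m j (j + 1) * m (i - 1) i * m (i - 1) j) := by
    calc _ = (m (i - 1) (j + 1) * m (j + 1) (j + 1)) * (m (i - 1) i * m i (j + 1)) *
        ((m (i - 1) j * m j (j + 1)) * (m (i - 1) (i - 1) * m (i - 1) (j + 1))) := by ring
      _ ≤ _ := q3
      _ = _ := by ring
  exact le_of_mul_le_mul_right q4 P

end Pool.Agent.Helper50.PE
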