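import Pool.Agent.Helper50.PE.St

/-!
A6: iterated degree elevation preserves strong log-concavity.
-/

set_option autoImplicit false

namespace Pool.Agent.Helper50.PE

open Finset

private theorem beta_choose1 (I t : ℕ) :
    (I : ℝ) * ((I - 1).choose t : ℝ) = ((I : ℝ) - t) * (I.choose t : ℝ) := by
  rcases I with _ | I
  · rcases t with _ | t
    · simp
    · simp
  · rw [Nat.add_sub_cancel]
    rcases lt_or_ge (I + 1) t with h | h
    · rw [Nat.choose_eq_zero_of_lt h, Nat.choose_eq_zero_of_lt (by omega : I < t)]
      simp
    · have h1 := Nat.choose_mul_succ_eq I t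
      rw [← Nat.cast_sub h, mul_comm, mul_comm (((I + 1 - t : ℕ)) : ℝ)]
      exact_mod_cast h1

private theorem beta_choose2 {M I : ℕ} (hI : I ≤ M + 1) (k : ℕ) :
    ((M : ℝ) + 1 - I) * ((M - I).choose k : ℝ) =
      ((M : ℝ) + 1 - I - k) * ((M + 1 - I).choose k : ℝ) := by
  have h := beta_choose1 (M + 1 - I) k
  have e : M + 1 - I - 1 = M - I := by omega
  rw [e, Nat.cast_sub hI] at h
  push_cast at h
  exact h

private theorem beta_term {M p I t : ℕ} (hI : I ≤ M + 1) (ht : t ≤ p) :
    (I : ℝ) * K M p (I - 1) t + ((M : ℝ) + 1 - I) * K M p I t =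
      ((M : ℝ) + 1 - p) * K (M + 1) p I t := by
  unfold K
  have h1 := beta_choose1 I t
  have h2 := beta_choose2 hI (p - t)
  rw [Nat.cast_sub ht] at h2
  have h3 : (I : ℝ) * (((I - 1).choose t : ℝ) * ((M - (I - 1)).choose (p - t) : ℝ)) =
      (I : ℝ) * (((I - 1).choose t : ℝ) * ((M + 1 - I).choose (p - t) : ℝ)) := by
    rcases I with _ | I
    · simp
    · have e : M - (I + 1 - 1) = M + 1 - (I + 1) := by omega
      rw [e]
  rw [h3]
  linear_combination ((M + 1 - I).choose (p - t) : ℝ) * h1 + (I.choose t : ℝ) * h2

private theorem beta_step {M p : ℕ} (b : ℕ → ℝ) (I : ℕ) :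
    Uop M (beta p M b) I = ((M : ℝ) + 1 - p) * beta p (M + 1) b I := by
  unfold Uop
  rcases le_or_gt I (M + 1) with hI | hI
  · have e1 : beta p M b (I - 1) = ∑ t ∈ range (p + 1), K M p (I - 1) t * b t := by
      unfold beta
      rw [if_pos (by omega)]
    have e2 : ((M : ℝ) + 1 - I) * beta p M b I =
        ((M : ℝ) + 1 - I) * ∑ t ∈ range (p + 1), K M p I t * b t := by
      unfold beta
      rcases Nat.lt_or_ge M I with h | h
      · have e3 : I = M + 1 := by omega
        subst e3
        push_cast
        ring
      · rw [if_pos h]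
    have e3 : beta p (M + 1) b I = ∑ t ∈ range (p + 1), K (M + 1) p I t * b t := by
      unfold beta
      rw [if_pos hI]
    rw [e1, e2, e3, mul_sum, mul_sum, mul_sum, ← sum_add_distrib]
    refine sum_congr rfl fun t ht => ?_
    have ht' : t ≤ p := by
      rw [mem_range] at ht
      omega
    have := beta_term hI ht'
    linear_combination (b t) * this
  · have e1 : beta p M b (I - 1) = 0 := by
      unfold beta
      rw [if_neg (by omega)]
    have e2 : beta p M b I = 0 := by
      unfold beta
      rw [if_neg (by omega)]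
    have e3 : beta p (M + 1) b I = 0 := by
      unfold beta
      rw [if_neg (by omega)]
    rw [e1, e2, e3]
    ring

private theorem beta_base {p : ℕ} (b : ℕ → ℝ) (I : ℕ) :
    beta p p b I = if I ≤ p then b I else 0 := by
  unfold beta
  split_ifs with h
  · rw [sum_eq_single I]
    · unfold K
      simp
    · intro t ht htI
      rw [mem_range] at ht
      unfold K
      rcases Nat.lt_or_ge I t with h1 | h1
      · rw [Nat.choose_eq_zero_of_lt h1]
        simp
      · rw [Nat.choose_eq_zero_of_lt (by omega : p - I < p - t)]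
        simp
    · intro hI
      rw [mem_range] at hI
      omega
  · rfl

/-- A6 -/
theorem pf_Beta (hU : StU) : StBeta := by
  intro p M b hM hb
  induction M, hM using Nat.le_induction with
  | base =>
    have hn : ∀ i, 0 ≤ beta p p b i := by
      intro i
      rw [beta_base]
      split_ifs
      · exact hb.1 i
      · exact le_rfl
    refine ⟨hn, fun i j hij => ?_⟩
    rcases Nat.lt_or_ge p (j + 2) with h | h
    · have : beta p p b (j + 2) = 0 := by
        rw [beta_base, if_neg (by omega)]
      rw [this, mul_zero]
      exact mul_nonneg (hn _) (hn _)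
    · rw [beta_base, beta_base, beta_base, beta_base, if_pos (by omega), if_pos h,
        if_pos (by omega), if_pos (by omega)]
      exact hb.2 i j hij
  | succ M hM ih =>
    have h1 := hU M (beta p M b) ih (by
      intro i hi
      unfold beta
      rw [if_neg (by omega)])
    have hpos : (0 : ℝ) < (M : ℝ) + 1 - p := by
      have : (p : ℝ) ≤ M := by exact_mod_cast hM
      linarith
    refine ⟨fun i => ?_, fun i j hij => ?_⟩
    · have h2 := h1.1 i
      rw [beta_step] at h2
      by_contra hcon
      push Not at hcon
      have := mul_neg_of_pos_of_neg hpos hcon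
      linarith
    · have h2 := h1.2 i j hij
      rw [beta_step, beta_step, beta_step, beta_step] at h2
      have h3 : ((M : ℝ) + 1 - p) ^ 2 * (beta p (M + 1) b i * beta p (M + 1) b (j + 2)) ≤
          ((M : ℝ) + 1 - p) ^ 2 * (beta p (M + 1) b (i + 1) * beta p (M + 1) b (j + 1)) := by
        linarith
      exact le_of_mul_le_mul_left h3 (by positivity)

end Pool.Agent.Helper50.PE
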