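import Pool.Agent.Helper50.PE.Seq

/-!
The coefficients of a disjoint union are given by the sequence `cc`.
-/

set_option autoImplicit false

namespace Pool.Agent.Helper50.PE

open Finset
open Pool.Agent.Helper16.PEul (IsExt des leN numExt)

theorem asc_add_des : ∀ l : List ℕ, l ≠ [] → asc l + des l + 1 = l.length
  | [], h => absurd rfl h
  | [_], _ => by simp [asc, des]
  | x :: y :: t, _ => by
    have ih := asc_add_des (y :: t) (List.cons_ne_nil _ _)
    have e1 : asc (x :: y :: t) = (if x < y then 0 else 1) + asc (y :: t) := rfl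
    have e2 : des (x :: y :: t) = (if x < y then 1 else 0) + des (y :: t) := rfl
    rw [e1, e2, List.length_cons]
    split <;> omega

theorem length_of_ext {le : ℕ → ℕ → Prop} {U : Finset ℕ} {l : List ℕ} (h : l ∈ exts le U) :
    l.length = U.card := by
  have h1 := mem_exts.1 h
  rw [← h1.set, List.toFinset_card_of_nodup h1.nodup]

theorem ne_nil_of_ext {le : ℕ → ℕ → Prop} {U : Finset ℕ} (hU : U.Nonempty) {l : List ℕ}
    (h : l ∈ exts le U) : l ≠ [] := by
  rintro rfl
  have := length_of_ext h
  rw [List.length_nil] at this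
  exact (Finset.card_pos.2 hU).ne this

theorem des_lt {le : ℕ → ℕ → Prop} {U : Finset ℕ} (hU : U.Nonempty) {l : List ℕ}
    (h : l ∈ exts le U) : des l < U.card := by
  have := asc_add_des l (ne_nil_of_ext hU h)
  rw [length_of_ext h] at this
  omega

theorem nd_zero {le : ℕ → ℕ → Prop} {U : Finset ℕ} (hU : U.Nonempty) {k : ℕ} (hk : U.card ≤ k) :
    nd le U k = 0 := by
  unfold nd
  rw [Finset.card_eq_zero]
  refine Finset.filter_eq_empty_iff.2 fun l hl h => ?_
  have := des_lt hU hl
  omega

/-- grouping the extensions by the number of descents -/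
theorem sum_des {le : ℕ → ℕ → Prop} {U : Finset ℕ} (hU : U.Nonempty) (g : ℕ → ℕ) :
    ∑ l ∈ exts le U, g (des l) = ∑ i ∈ range U.card, nd le U i * g i := by
  rw [← sum_fiberwise_of_maps_to (g := des) (t := range U.card)
    (fun l hl => mem_range.2 (des_lt hU hl))]
  refine sum_congr rfl fun i _ => ?_
  unfold nd
  rw [← smul_eq_mul, ← sum_const]
  exact sum_congr rfl fun l hl => by rw [(mem_filter.1 hl).2]

theorem nd_union (hSh : StShuf) (hSp : StSplit) {le : ℕ → ℕ → Prop} {S T : Finset ℕ}
    (hd : Disjoint S T) (hinc : ∀ x ∈ S, ∀ y ∈ T, ¬ le x y ∧ ¬ le y x)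
    (hS : S.Nonempty) (hT : T.Nonempty) (k : ℕ) :
    nd le (S ∪ T) k = ∑ i ∈ range S.card, nd le S i * ∑ j ∈ range T.card, nd le T j *
      (bsh (T.card - j + i) j k * bsh (S.card - i + j) i k) := by
  rw [hSp le S T hd hinc k]
  rw [← sum_des hS (fun i => ∑ j ∈ range T.card, nd le T j *
      (bsh (T.card - j + i) j k * bsh (S.card - i + j) i k))]
  refine sum_congr rfl fun l hl => ?_
  rw [← sum_des hT (fun j => bsh (T.card - j + des l) j k * bsh (S.card - des l + j) (des l) k)]
  refine sum_congr rfl fun m hm => ?_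
  have nl := ne_nil_of_ext hS hl
  have nm := ne_nil_of_ext hT hm
  have el := mem_exts.1 hl
  have em := mem_exts.1 hm
  rw [hSh l m nl nm el.nodup em.nodup (fun x hx hx' => by
    have h1 : x ∈ S := by rw [← el.set]; exact List.mem_toFinset.2 hx
    have h2 : x ∈ T := by rw [← em.set]; exact List.mem_toFinset.2 hx'
    exact Finset.disjoint_left.1 hd h1 h2) k]
  have a1 := asc_add_des l nl
  have a2 := asc_add_des m nm
  rw [length_of_ext hl] at a1
  rw [length_of_ext hm] at a2
  have e1 : asc m + 1 + des l = T.card - des m + des l := by omega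
  have e2 : asc l + 1 + des m = S.card - des l + des m := by omega
  rw [e1, e2]

/-- reindexing of a one-sided convolution -/
theorem reindex (A : ℕ → ℝ) (n k q : ℕ) (hA : ∀ i, n ≤ i → A i = 0) (g : ℕ → ℝ)
    (hg : ∀ s, q < s → g s = 0) :
    ∑ i ∈ range n, A i * (if i ≤ k then g (k - i) else 0) =
      ∑ s ∈ range (q + 1), toZ A ((k : ℤ) - s) * g s := by
  have h1 : ∑ i ∈ range n, A i * (if i ≤ k then g (k - i) else 0) =
      ∑ i ∈ range (n + (k + 1)), A i * (if i ≤ k then g (k - i) else 0) := by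
    refine sum_subset (range_subset_range.2 (Nat.le_add_right _ _)) fun i _ hi => ?_
    rw [hA i (not_lt.1 fun h => hi (mem_range.2 h)), zero_mul]
  have h2 : ∑ i ∈ range (k + 1), A i * (if i ≤ k then g (k - i) else 0) =
      ∑ i ∈ range (n + (k + 1)), A i * (if i ≤ k then g (k - i) else 0) := by
    refine sum_subset (range_subset_range.2 (Nat.le_add_left _ _)) fun i _ hi => ?_
    rw [if_neg (fun h => hi (mem_range.2 (Nat.lt_succ_iff.2 h))), mul_zero]
  have h3 : ∑ s ∈ range (k + 1), toZ A ((k : ℤ) - s) * g s =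
      ∑ s ∈ range (k + 1 + (q + 1)), toZ A ((k : ℤ) - s) * g s := by
    refine sum_subset (range_subset_range.2 (Nat.le_add_right _ _)) fun s _ hs => ?_
    rw [toZ_neg A (by
      have : k + 1 ≤ s := not_lt.1 fun h => hs (mem_range.2 h)
      omega), zero_mul]
  have h4 : ∑ s ∈ range (q + 1), toZ A ((k : ℤ) - s) * g s =
      ∑ s ∈ range (k + 1 + (q + 1)), toZ A ((k : ℤ) - s) * g s := by
    refine sum_subset (range_subset_range.2 (Nat.le_add_left _ _)) fun s _ hs => ?_
    rw [hg s (by
      have : q + 1 ≤ s := not_lt.1 fun h => hs (mem_range.2 h)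
      omega), mul_zero]
  rw [h1, ← h2, h4, ← h3, ← sum_range_reflect]
  refine sum_congr rfl fun s hs => ?_
  have hs' : s ≤ k := Nat.lt_succ_iff.1 (mem_range.1 hs)
  rw [if_pos (by omega)]
  have e1 : k - (k + 1 - 1 - s) = s := by omega
  have e2 : (k : ℤ) - s = ((k + 1 - 1 - s : ℕ) : ℤ) := by omega
  rw [e1, e2, toZ_nat]

theorem G_eq {p q i j k : ℕ} (hi : i < p) (hj : j < q) :
    ((bsh (q - j + i) j k * bsh (p - i + j) i k : ℕ) : ℝ) =
      if i ≤ k then (if k - i ≤ q then (if j ≤ k then
        (if k - j ≤ p then W p q (k - i) (p - (k - j)) else 0) else 0) else 0) else 0 := by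
  unfold bsh
  by_cases h1 : i ≤ k
  · rw [if_pos h1, if_pos h1]
    by_cases h3 : j ≤ k
    · rw [if_pos h3]
      by_cases h2 : k - i ≤ q
      · rw [if_pos h2, if_pos h3]
        by_cases h4 : k - j ≤ p
        · rw [if_pos h4]
          unfold W
          have e1 : k - i + (p - (k - j)) = p - i + j := by omega
          have e2 : q - (k - i) + (p - (p - (k - j))) = q - j + i := by omega
          rw [e1, e2, Nat.cast_mul, mul_comm]
          congr 2
          exact Nat.choose_symm_of_eq_add (by omega)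
        · rw [if_neg h4, Nat.choose_eq_zero_of_lt (show p - i + j < k - i by omega), mul_zero,
            Nat.cast_zero]
      · rw [if_neg h2, Nat.choose_eq_zero_of_lt (show q - j + i < k - j by omega), zero_mul,
          Nat.cast_zero]
    · rw [if_neg h3, zero_mul, Nat.cast_zero, if_neg h3, ite_self]
  · rw [if_neg h1, mul_zero, Nat.cast_zero, if_neg h1]

/-- the coefficients of the disjoint union -/
theorem nd_eq_cc (hSh : StShuf) (hSp : StSplit) {le : ℕ → ℕ → Prop} {S T : Finset ℕ}
    (hd : Disjoint S T) (hinc : ∀ x ∈ S, ∀ y ∈ T, ¬ le x y ∧ ¬ le y x)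
    (hS : S.Nonempty) (hT : T.Nonempty) (k : ℕ) :
    (nd le (S ∪ T) k : ℝ) = cc S.card T.card (toZ fun i => (nd le S i : ℝ))
      (toZ fun j => (nd le T j : ℝ)) k := by
  rw [nd_union hSh hSp hd hinc hS hT k]
  set p := S.card
  set q := T.card
  set A : ℕ → ℝ := fun i => (nd le S i : ℝ) with hA
  set B : ℕ → ℝ := fun j => (nd le T j : ℝ) with hB
  push_cast
  -- inner reindexing
  have inner : ∀ s, s ≤ q → ∑ j ∈ range q, B j * (if j ≤ k then
      (if k - j ≤ p then W p q s (p - (k - j)) else 0) else 0) =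
      ∑ t ∈ range (p + 1), W p q s t * toZ B ((k : ℤ) - p + t) := by
    intro s _
    have := reindex B q k p (fun i hi => by
      show (nd le T i : ℝ) = 0
      rw [nd_zero hT hi, Nat.cast_zero])
      (fun u => if u ≤ p then W p q s (p - u) else 0)
      (fun u hu => by
        show (if u ≤ p then W p q s (p - u) else 0) = 0
        rw [if_neg (not_le.2 hu)])
    rw [this, ← sum_range_reflect]
    refine sum_congr rfl fun t ht => ?_
    have ht' : t ≤ p := Nat.lt_succ_iff.1 (mem_range.1 ht)
    show toZ B ((k : ℤ) - ((p + 1 - 1 - t : ℕ) : ℤ)) *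
      (if p + 1 - 1 - t ≤ p then W p q s (p - (p + 1 - 1 - t)) else 0) = _
    rw [if_pos (by omega)]
    have e1 : (k : ℤ) - ((p + 1 - 1 - t : ℕ) : ℤ) = (k : ℤ) - p + t := by omega
    have e2 : p - (p + 1 - 1 - t) = t := by omega
    rw [e1, e2, mul_comm]
  have outer := reindex A p k q (fun i hi => by
      show (nd le S i : ℝ) = 0
      rw [nd_zero hS hi, Nat.cast_zero])
      (fun s => if s ≤ q then ∑ j ∈ range q, B j * (if j ≤ k then
        (if k - j ≤ p then W p q s (p - (k - j)) else 0) else 0) else 0)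
      (fun s hs => by
        show (if s ≤ q then _ else _) = _
        rw [if_neg (not_le.2 hs)])
  have lhs : ∑ i ∈ range p, (nd le S i : ℝ) * ∑ j ∈ range q, (nd le T j : ℝ) *
      ((bsh (q - j + i) j k : ℝ) * (bsh (p - i + j) i k : ℝ)) =
      ∑ i ∈ range p, A i * (if i ≤ k then
        (if k - i ≤ q then ∑ j ∈ range q, B j * (if j ≤ k then
        (if k - j ≤ p then W p q (k - i) (p - (k - j)) else 0) else 0) else 0) else 0) := by
    refine sum_congr rfl fun i hi => ?_
    congr 1
    have hi' := mem_range.1 hi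
    have hj : ∀ j ∈ range q, (nd le T j : ℝ) *
        ((bsh (q - j + i) j k : ℝ) * (bsh (p - i + j) i k : ℝ)) =
        B j * (if i ≤ k then (if k - i ≤ q then (if j ≤ k then
        (if k - j ≤ p then W p q (k - i) (p - (k - j)) else 0) else 0) else 0) else 0) := by
      intro j hj
      rw [← G_eq hi' (mem_range.1 hj), Nat.cast_mul]
    rw [sum_congr rfl hj]
    by_cases h1 : i ≤ k
    · by_cases h2 : k - i ≤ q
      · simp only [if_pos h1, if_pos h2]
      · simp only [if_pos h1, if_neg h2, mul_zero, sum_const_zero]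
    · simp only [if_neg h1, mul_zero, sum_const_zero]
  rw [lhs, outer]
  unfold cc
  refine sum_congr rfl fun s hs => ?_
  have hs' : s ≤ q := Nat.lt_succ_iff.1 (mem_range.1 hs)
  show toZ A ((k : ℤ) - s) * (if s ≤ q then _ else _) = _
  rw [if_pos hs', inner s hs', mul_sum]
  exact sum_congr rfl fun t _ => by ring

/-- closure of strong log-concavity under disjoint unions -/
theorem closure (hB : StBeta) (hL : StLow) (hSa : StSand) (hLim : StLim) (hSh : StShuf)
    (hSp : StSplit) {le : ℕ → ℕ → Prop} {S T : Finset ℕ}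
    (hd : Disjoint S T) (hinc : ∀ x ∈ S, ∀ y ∈ T, ¬ le x y ∧ ¬ le y x)
    (h1 : SLN (fun k => (nd le S k : ℝ))) (h2 : SLN (fun k => (nd le T k : ℝ))) :
    SLN (fun k => (nd le (S ∪ T) k : ℝ)) := by
  rcases S.eq_empty_or_nonempty with rfl | hS
  · rw [empty_union]; exact h2
  rcases T.eq_empty_or_nonempty with rfl | hT
  · rw [union_empty]; exact h1
  have h := (ccSLC hB hL hSa hLim S.card T.card h1.toZ h2.toZ).toN 0
  have e : (fun k => (nd le (S ∪ T) k : ℝ)) = fun n : ℕ =>
      cc S.card T.card (toZ fun i => (nd le S i : ℝ)) (toZ fun j => (nd le T j : ℝ)) (0 + n) := by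
    funext k
    rw [nd_eq_cc hSh hSp hd hinc hS hT k, zero_add]
  rw [e]
  exact h

end Pool.Agent.Helper50.PE
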