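import Pool.Agent.Helper50.PE.St

/-!
A5: degree lowering preserves strong log-concavity.
-/

set_option autoImplicit false

namespace Pool.Agent.Helper50.PE

open Finset

theorem two_mul_le_add_of_sq_le {x y z : ℝ} (hx : 0 ≤ x) (hy : 0 ≤ y)
    (h : z ^ 2 ≤ x * y) : 2 * z ≤ x + y := by
  by_contra hc
  push Not at hc
  nlinarith [sq_nonneg (x - y), mul_nonneg hx hy, add_nonneg hx hy]

theorem pf_D : StD := by
  intro q e he h0
  obtain ⟨hnn, hlc⟩ := he
  have hD0 : ∀ s, q ≤ s → Dop q e s = 0 := by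
    intro s hs
    unfold Dop
    rw [h0 (s + 1) (by omega)]
    rcases Nat.lt_or_ge q s with h | h
    · rw [h0 s h]; ring
    · have : s = q := le_antisymm h hs
      subst this
      ring
  have hDnn : ∀ s, 0 ≤ Dop q e s := by
    intro s
    rcases Nat.lt_or_ge s q with h | h
    · unfold Dop
      have h1 : (s : ℝ) ≤ q := by exact_mod_cast h.le
      have := hnn s
      have := hnn (s + 1)
      have h2 : 0 ≤ ((s : ℝ) + 1) * e (s + 1) := by positivity
      have h3 : 0 ≤ ((q : ℝ) - s) * e s := mul_nonneg (by linarith) (hnn s)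
      linarith
    · rw [hD0 s h]
  refine ⟨hDnn, ?_⟩
  intro i j hij
  rcases Nat.lt_or_ge (j + 2) q with hjq | hjq
  swap
  · rw [hD0 (j + 2) hjq, mul_zero]
    exact mul_nonneg (hDnn _) (hDnn _)
  have hiR : (i : ℝ) ≤ j := by exact_mod_cast hij
  have hqR : (j : ℝ) + 3 ≤ q := by exact_mod_cast (by omega : j + 3 ≤ q)
  have hi0 : (0 : ℝ) ≤ i := Nat.cast_nonneg i
  -- the log-concavity inequalities
  have a1 : e (i + 1) * e (j + 3) ≤ e (i + 2) * e (j + 2) := hlc (i + 1) (j + 1) (by omega)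
  have a2 : e i * e (j + 2) ≤ e (i + 1) * e (j + 1) := hlc i j hij
  have a3 : e (i + 1) * e (j + 2) ≤ e (i + 2) * e (j + 1) := by
    rcases Nat.lt_or_ge i j with h | h
    · exact hlc (i + 1) j h
    · have : i = j := le_antisymm hij h
      subst this
      rw [mul_comm]
  have a4 : e i * e (j + 3) ≤ e (i + 1) * e (j + 2) := hlc i (j + 1) (by omega)
  have a5 : 2 * (e (i + 1) * e (j + 2)) ≤ e (i + 2) * e (j + 2) + e (i + 1) * e (j + 1) := by
    apply two_mul_le_add_of_sq_le (mul_nonneg (hnn _) (hnn _)) (mul_nonneg (hnn _) (hnn _))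
    have := mul_le_mul_of_nonneg_left a3 (mul_nonneg (hnn (i + 1)) (hnn (j + 2)))
    nlinarith [this]
  unfold Dop
  push_cast
  have b1 : 0 ≤ ((i : ℝ) + 1) * ((j : ℝ) + 3) * (e (i + 2) * e (j + 2) - e (i + 1) * e (j + 3)) :=
    mul_nonneg (by nlinarith) (by linarith)
  have b2 : 0 ≤ ((q : ℝ) - i) * ((q : ℝ) - j - 2) * (e (i + 1) * e (j + 1) - e i * e (j + 2)) :=
    mul_nonneg (mul_nonneg (by linarith) (by linarith)) (by linarith)
  have b3 : 0 ≤ ((i : ℝ) + 2) * ((q : ℝ) - j - 1) *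
      (e (i + 2) * e (j + 1) - e (i + 1) * e (j + 2)) :=
    mul_nonneg (mul_nonneg (by linarith) (by linarith)) (by linarith)
  have b4 : 0 ≤ ((q : ℝ) - i) * ((j : ℝ) + 3) * (e (i + 1) * e (j + 2) - e i * e (j + 3)) :=
    mul_nonneg (mul_nonneg (by linarith) (by linarith)) (by linarith)
  have b5 : 0 ≤ ((j : ℝ) - i + 1) *
      (e (i + 2) * e (j + 2) + e (i + 1) * e (j + 1) - 2 * (e (i + 1) * e (j + 2))) :=
    mul_nonneg (by linarith) (by linarith)
  have e1 : i + 1 + 1 = i + 2 := rfl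
  have e2 : j + 1 + 1 = j + 2 := rfl
  have e3 : j + 2 + 1 = j + 3 := rfl
  rw [e1, e2, e3]
  nlinarith [b1, b2, b3, b4, b5]

end Pool.Agent.Helper50.PE
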