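import Pool.Agent.Helper16.PEul.Main

/-!
Definitions for the closure of log-concavity under disjoint unions of labelled posets.
-/

set_option autoImplicit false

namespace Pool.Agent.Helper50.PE

open Finset
open Pool.Agent.Helper16.PEul (IsExt des leN numExt)

/-- strong log-concavity of a two-sided sequence -/
def SLC (a : ℤ → ℝ) : Prop :=
  (∀ i, 0 ≤ a i) ∧ ∀ i j : ℤ, i ≤ j → a (i - 1) * a (j + 1) ≤ a i * a j

/-- strong log-concavity of a sequence on the natural numbers -/
def SLN (a : ℕ → ℝ) : Prop :=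
  (∀ i, 0 ≤ a i) ∧ ∀ i j : ℕ, i ≤ j → a i * a (j + 2) ≤ a (i + 1) * a (j + 1)

/-- the kernel `C(I,s) C(M-I,q-s)` -/
noncomputable def K (M q I s : ℕ) : ℝ := (I.choose s : ℝ) * ((M - I).choose (q - s) : ℝ)

/-- degree elevation -/
noncomputable def Uop (M : ℕ) (b : ℕ → ℝ) (I : ℕ) : ℝ :=
  (I : ℝ) * b (I - 1) + ((M : ℝ) + 1 - I) * b I

/-- degree lowering -/
noncomputable def Dop (q : ℕ) (e : ℕ → ℝ) (s : ℕ) : ℝ :=
  ((s : ℝ) + 1) * e (s + 1) + ((q : ℝ) - s) * e s

/-- iterated degree elevation to degree `M` -/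
noncomputable def beta (p M : ℕ) (b : ℕ → ℝ) (I : ℕ) : ℝ :=
  if I ≤ M then ∑ t ∈ range (p + 1), K M p I t * b t else 0

/-- iterated degree lowering from degree `M` to degree `q` -/
noncomputable def low (q M : ℕ) (c : ℕ → ℝ) (s : ℕ) : ℝ :=
  if s ≤ q then ∑ I ∈ range (M + 1), K M q I s * c I else 0

/-- the discretised kernel -/
noncomputable def WM (M p q s t : ℕ) : ℝ := ∑ I ∈ range (M + 1), K M q I s * K M p I t

/-- the limit kernel: number of lattice paths through a point -/
noncomputable def W (p q s t : ℕ) : ℝ :=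
  ((s + t).choose s : ℝ) * (((q - s) + (p - t)).choose (q - s) : ℝ)

/-- the discretised two-parameter array -/
noncomputable def cM (M p q : ℕ) (a b : ℤ → ℝ) (k l : ℤ) : ℝ :=
  ∑ s ∈ range (q + 1), ∑ t ∈ range (p + 1), a (k - s) * WM M p q s t * b (l - p + t)

/-- the limit sequence -/
noncomputable def cc (p q : ℕ) (a b : ℤ → ℝ) (k : ℤ) : ℝ :=
  ∑ s ∈ range (q + 1), ∑ t ∈ range (p + 1), a (k - s) * W p q s t * b (k - p + t)

/-- shifted binomial coefficient `C(n, k - i)`, zero for `k < i` -/
def bsh (n i k : ℕ) : ℕ := if i ≤ k then n.choose (k - i) else 0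

/-- number of ascents of a word (head of the list = last letter) -/
def asc : List ℕ → ℕ
  | [] => 0
  | [_] => 0
  | x :: y :: t => (if x < y then 0 else 1) + asc (y :: t)

/-- the shuffles of two lists -/
def sh : List ℕ → List ℕ → Finset (List ℕ)
  | [], m => {m}
  | l, [] => {l}
  | a :: l, b :: m =>
      (sh l (b :: m)).image (fun w => a :: w) ∪ (sh (a :: l) m).image (fun w => b :: w)
termination_by l m => l.length + m.length

open Classical in
/-- the linear extensions of the restriction of `le` to `U`, as words (head = last letter) -/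
noncomputable def exts (le : ℕ → ℕ → Prop) (U : Finset ℕ) : Finset (List ℕ) :=
  U.toList.permutations.toFinset.filter (fun l => l.Pairwise (fun x y => ¬ le x y))

/-- number of linear extensions of the restriction to `U` with `k` descents -/
noncomputable def nd (le : ℕ → ℕ → Prop) (U : Finset ℕ) (k : ℕ) : ℕ :=
  ((exts le U).filter (fun l => des l = k)).card

/-- `le` is a partial order on `U` -/
structure PO (le : ℕ → ℕ → Prop) (U : Finset ℕ) : Prop where
  refl : ∀ x ∈ U, le x x
  anti : ∀ x ∈ U, ∀ y ∈ U, le x y → le y x → x = y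
  trans : ∀ x ∈ U, ∀ y ∈ U, ∀ z ∈ U, le x y → le y z → le x z

theorem mem_exts {le : ℕ → ℕ → Prop} {U : Finset ℕ} {l : List ℕ} :
    l ∈ exts le U ↔ IsExt le U l := by
  classical
  unfold exts
  rw [Finset.mem_filter, List.mem_toFinset, List.mem_permutations]
  constructor
  · rintro ⟨h, ho⟩
    refine ⟨h.nodup_iff.2 (Finset.nodup_toList U), ?_, ho⟩
    ext x
    rw [List.mem_toFinset, h.mem_iff, Finset.mem_toList]
  · intro h
    refine ⟨?_, h.ord⟩
    refine (List.perm_ext_iff_of_nodup h.nodup (Finset.nodup_toList U)).2 fun x => ?_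
    rw [Finset.mem_toList, ← h.set, List.mem_toFinset]

end Pool.Agent.Helper50.PE
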