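import Pool.Agent.Helper50.PE.St

/-!
Module C2: the numbers of descents of the linear extensions have no gaps.
-/

set_option autoImplicit false

namespace Pool.Agent.Helper50.PE

open Finset
open Pool.Agent.Helper16.PEul (IsExt des leN numExt isExt_cons isExt_tail)

theorem PO.mono {le : ℕ → ℕ → Prop} {U V : Finset ℕ} (h : PO le U) (hV : V ⊆ U) : PO le V :=
  ⟨fun x hx => h.refl x (hV hx), fun x hx y hy => h.anti x (hV hx) y (hV hy),
    fun x hx y hy z hz => h.trans x (hV hx) y (hV hy) z (hV hz)⟩

theorem PO.exists_max {le : ℕ → ℕ → Prop} {U : Finset ℕ} (h : PO le U) (hU : U.Nonempty) :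
    ∃ x ∈ U, ∀ y ∈ U, le x y → y = x := by
  classical
  obtain ⟨x, hx, hmax⟩ := Finset.exists_max_image U (fun x => (U.filter (fun y => le y x)).card) hU
  refine ⟨x, hx, fun y hy hxy => ?_⟩
  by_contra hne
  have hlt : (U.filter (fun z => le z x)).card < (U.filter (fun z => le z y)).card := by
    apply Finset.card_lt_card
    rw [Finset.ssubset_iff_of_subset]
    · refine ⟨y, ?_, ?_⟩
      · rw [Finset.mem_filter]
        exact ⟨hy, h.refl y hy⟩
      · rw [Finset.mem_filter]
        rintro ⟨_, h2⟩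
        exact hne (h.anti y hy x hx h2 hxy)
    · intro z hz
      rw [Finset.mem_filter] at hz ⊢
      exact ⟨hz.1, h.trans z hz.1 x hx y hy hz.2 hxy⟩
  exact absurd (hmax y hy) (not_le.2 hlt)

theorem PO.exists_ext {le : ℕ → ℕ → Prop} : ∀ (n : ℕ) (U : Finset ℕ), U.card = n → PO le U →
    ∃ w, IsExt le U w := by
  intro n
  induction n with
  | zero =>
    intro U hU _
    rw [Finset.card_eq_zero] at hU
    subst hU
    exact ⟨[], List.nodup_nil, rfl, List.Pairwise.nil⟩
  | succ n ih =>
    intro U hU h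
    have hne : U.Nonempty := by
      rw [← Finset.card_pos]; omega
    obtain ⟨x, hx, hmax⟩ := h.exists_max hne
    obtain ⟨w, hw⟩ := ih (U.erase x) (by rw [Finset.card_erase_of_mem hx]; omega)
      (h.mono (Finset.erase_subset x U))
    refine ⟨x :: w, ?_⟩
    have h2 := isExt_cons (Finset.notMem_erase x U) hw (fun y hy hxy => by
      rw [Finset.mem_erase] at hy
      exact hy.1 (hmax y hy.2 hxy))
    rwa [Finset.insert_erase hx] at h2

/-- the first letter of a nonempty word -/
theorem ext_cases {le : ℕ → ℕ → Prop} {U : Finset ℕ} {w : List ℕ} (hU : U.Nonempty)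
    (hw : IsExt le U w) : ∃ x w', w = x :: w' ∧ x ∈ U ∧ IsExt le (U.erase x) w' ∧
      ∀ y ∈ U.erase x, ¬ le x y := by
  cases w with
  | nil =>
    exfalso
    have := hw.set
    rw [List.toFinset_nil] at this
    rw [← this] at hU
    exact Finset.not_nonempty_empty hU
  | cons x w' =>
    have hx : x ∈ U := by
      rw [← hw.set, List.mem_toFinset]
      exact List.mem_cons_self
    have h2 : IsExt le (insert x (U.erase x)) (x :: w') := by
      rw [Finset.insert_erase hx]; exact hw
    obtain ⟨h3, h4⟩ := isExt_tail (Finset.notMem_erase x U) h2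
    exact ⟨x, w', rfl, hx, h3, h4⟩

theorem des_swap (z x y : ℕ) (w : List ℕ) (_hxy : x ≠ y) :
    des (z :: y :: x :: w) ≤ des (z :: x :: y :: w) + 1 := by
  cases w with
  | nil =>
    simp only [des]
    split_ifs <;> omega
  | cons t w =>
    simp only [des]
    split_ifs <;> omega

theorem gap_prefix {le : ℕ → ℕ → Prop} : ∀ (n : ℕ) (U : Finset ℕ), U.card = n → PO le U →
    ∀ (z i j k : ℕ), i ≤ j → j ≤ k → (∃ w, IsExt le U w ∧ des (z :: w) = i) →
      (∃ w, IsExt le U w ∧ des (z :: w) = k) → ∃ w, IsExt le U w ∧ des (z :: w) = j := by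
  intro n
  induction n with
  | zero =>
    intro U hU _ z i j k hij hjk hi hk
    rw [Finset.card_eq_zero] at hU
    subst hU
    obtain ⟨w, hw, hwi⟩ := hi
    obtain ⟨v, hv, hvk⟩ := hk
    have hw0 : w = [] := by
      rw [← List.toFinset_eq_empty_iff]; exact hw.set
    have hv0 : v = [] := by
      rw [← List.toFinset_eq_empty_iff]; exact hv.set
    subst hw0; subst hv0
    exact ⟨[], hw, by omega⟩
  | succ n ih =>
    intro U hU h z i j k hij hjk hi hk
    have hne : U.Nonempty := by
      rw [← Finset.card_pos]; omega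
    obtain ⟨w, hw, hwi⟩ := hi
    obtain ⟨v, hv, hvk⟩ := hk
    obtain ⟨x, w', rfl, hx, hw', hxm⟩ := ext_cases hne hw
    obtain ⟨y, v', rfl, hy, hv', hym⟩ := ext_cases hne hv
    -- the interval of words with first letter `x`
    have key : ∀ x ∈ U, (∀ y ∈ U.erase x, ¬ le x y) → ∀ i j k : ℕ, i ≤ j → j ≤ k →
        (∃ w, IsExt le (U.erase x) w ∧ des (z :: x :: w) = i) →
        (∃ w, IsExt le (U.erase x) w ∧ des (z :: x :: w) = k) →
        ∃ w, IsExt le U w ∧ des (z :: w) = j := by
      intro x hx hxm i j k hij hjk hi hk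
      obtain ⟨w, hw, hwi⟩ := hi
      obtain ⟨v, hv, hvk⟩ := hk
      simp only [des] at hwi hvk
      obtain ⟨u, hu, huj⟩ := ih (U.erase x) (by rw [Finset.card_erase_of_mem hx]; omega)
        (h.mono (Finset.erase_subset x U)) x (i - if z < x then 1 else 0)
        (j - if z < x then 1 else 0) (k - if z < x then 1 else 0) (by omega) (by omega)
        ⟨w, hw, by omega⟩ ⟨v, hv, by omega⟩
      refine ⟨x :: u, ?_, ?_⟩
      · have h2 := isExt_cons (Finset.notMem_erase x U) hu hxm
        rwa [Finset.insert_erase hx] at h2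
      · simp only [des]
        omega
    by_cases hxy : x = y
    · subst hxy
      exact key x hx hxm i j k hij hjk ⟨w', hw', hwi⟩ ⟨v', hv', hvk⟩
    · obtain ⟨w0, hw0⟩ := PO.exists_ext (le := le) _ ((U.erase x).erase y) rfl
        (h.mono ((Finset.erase_subset _ _).trans (Finset.erase_subset _ _)))
      have hy2 : y ∈ U.erase x := Finset.mem_erase.2 ⟨fun h => hxy h.symm, hy⟩
      have hx2 : x ∈ U.erase y := Finset.mem_erase.2 ⟨hxy, hx⟩
      have e1 : IsExt le (U.erase x) (y :: w0) := by
        have h2 := isExt_cons (Finset.notMem_erase y (U.erase x)) hw0 (fun t ht => hym t (by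
          rw [Finset.mem_erase, Finset.mem_erase] at ht
          rw [Finset.mem_erase]
          exact ⟨ht.1, ht.2.2⟩))
        rwa [Finset.insert_erase hy2] at h2
      have hw0' : IsExt le ((U.erase y).erase x) w0 := by
        rw [Finset.erase_right_comm]; exact hw0
      have e2 : IsExt le (U.erase y) (x :: w0) := by
        have h2 := isExt_cons (Finset.notMem_erase x (U.erase y)) hw0' (fun t ht => hxm t (by
          rw [Finset.mem_erase, Finset.mem_erase] at ht
          rw [Finset.mem_erase]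
          exact ⟨ht.1, ht.2.2⟩))
        rwa [Finset.insert_erase hx2] at h2
      have hs := des_swap z x y w0 hxy
      by_cases hjp : j ≤ des (z :: x :: y :: w0)
      · exact key x hx hxm i j _ hij hjp ⟨w', hw', hwi⟩ ⟨_, e1, rfl⟩
      · exact key y hy hym (des (z :: y :: x :: w0)) j k (by omega) hjk ⟨_, e2, rfl⟩
          ⟨v', hv', hvk⟩

theorem nd_pos_iff {le : ℕ → ℕ → Prop} {U : Finset ℕ} {k : ℕ} :
    0 < nd le U k ↔ ∃ w, IsExt le U w ∧ des w = k := by
  unfold nd
  rw [Finset.card_pos]
  constructor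
  · rintro ⟨w, hw⟩
    rw [Finset.mem_filter, mem_exts] at hw
    exact ⟨w, hw⟩
  · rintro ⟨w, hw⟩
    refine ⟨w, ?_⟩
    rw [Finset.mem_filter, mem_exts]
    exact hw

theorem des_cons_sup {le : ℕ → ℕ → Prop} {U : Finset ℕ} {w : List ℕ} (hw : IsExt le U w) :
    des (U.sup id :: w) = des w := by
  cases w with
  | nil => rfl
  | cons x w =>
    have hx : x ∈ U := by
      rw [← hw.set, List.mem_toFinset]
      exact List.mem_cons_self
    have h2 : x ≤ U.sup id := Finset.le_sup (f := id) hx
    simp only [des]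
    rw [if_neg (not_lt.2 h2), zero_add]

theorem pf_Gap : StGap := by
  intro le U h i j k hij hjk hi hk
  rw [nd_pos_iff] at hi hk ⊢
  obtain ⟨w, hw, hwi⟩ := hi
  obtain ⟨v, hv, hvk⟩ := hk
  obtain ⟨u, hu, huj⟩ := gap_prefix _ U rfl h (U.sup id) i j k hij hjk
    ⟨w, hw, by rw [des_cons_sup hw]; exact hwi⟩ ⟨v, hv, by rw [des_cons_sup hv]; exact hvk⟩
  exact ⟨u, hu, by rw [← des_cons_sup hu]; exact huj⟩

end Pool.Agent.Helper50.PE
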