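import Pool.Agent.Helper50.PE.St

/-!
A12: a ratio of binomial coefficients tends to one.
-/

set_option autoImplicit false

namespace Pool.Agent.Helper50.PE

open Finset

theorem choose_succ_mul_real (n N : ℕ) (h : N ≤ n) :
    ((n + 1).choose N : ℝ) * ((n : ℝ) + 1 - N) = ((n : ℝ) + 1) * (n.choose N : ℝ) := by
  have h2 := Nat.choose_mul_succ_eq n N
  have h3 : ((n.choose N * (n + 1) : ℕ) : ℝ) = (((n + 1).choose N * (n + 1 - N) : ℕ) : ℝ) := by
    rw [h2]
  push_cast [Nat.cast_sub (by omega : N ≤ n + 1)] at h3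
  linarith

theorem ratio_step (N : ℕ) (k : ℕ) : Filter.Tendsto
    (fun M : ℕ => (((M + k + 1).choose N : ℝ)) / ((M + k).choose N : ℝ)) Filter.atTop (nhds 1) := by
  have h1 : Filter.Tendsto (fun M : ℕ => ((M : ℝ) + k + 1) / ((M : ℝ) + k + 1 - N)) Filter.atTop
      (nhds 1) := by
    have h2 : Filter.Tendsto (fun M : ℕ => 1 + (N : ℝ) / ((M : ℝ) + k + 1 - N)) Filter.atTop
        (nhds (1 + 0)) := by
      refine Filter.Tendsto.const_add _ ?_
      refine Filter.Tendsto.div_atTop (a := (N : ℝ)) tendsto_const_nhds ?_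
      have : (fun M : ℕ => (M : ℝ) + k + 1 - N) = fun M : ℕ => (M : ℝ) + ((k : ℝ) + 1 - N) := by
        funext M; ring
      rw [this]
      exact Filter.tendsto_atTop_add_const_right _ _ tendsto_natCast_atTop_atTop
    rw [add_zero] at h2
    refine h2.congr' ?_
    filter_upwards [Filter.eventually_ge_atTop N] with M hM
    have hM' : (N : ℝ) ≤ M := by exact_mod_cast hM
    have : (0 : ℝ) < (M : ℝ) + k + 1 - N := by
      have : (0 : ℝ) ≤ k := Nat.cast_nonneg k
      linarith
    field_simp
    ring
  refine h1.congr' ?_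
  filter_upwards [Filter.eventually_ge_atTop N] with M hM
  have hM' : (N : ℝ) ≤ M := by exact_mod_cast hM
  have hk : (0 : ℝ) ≤ k := Nat.cast_nonneg k
  have h3 : (0 : ℝ) < (M : ℝ) + k + 1 - N := by linarith
  have h4 : (0 : ℝ) < ((M + k).choose N : ℝ) := by
    exact_mod_cast Nat.choose_pos (by omega)
  have h5 := choose_succ_mul_real (M + k) N (by omega)
  push_cast at h5
  rw [div_eq_div_iff h3.ne' h4.ne']
  linarith

theorem pf_Lim : StLim := by
  intro p N
  induction p with
  | zero =>
    refine Filter.Tendsto.congr' ?_ tendsto_const_nhds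
    filter_upwards [Filter.eventually_ge_atTop N] with M hM
    have : (0 : ℝ) < ((M + 1).choose N : ℝ) := by
      exact_mod_cast Nat.choose_pos (by omega)
    simp only [add_zero]
    rw [div_self this.ne']
  | succ p ih =>
    have h1 := ratio_step N (p + 1)
    have h2 := h1.mul ih
    rw [mul_one] at h2
    refine h2.congr' ?_
    filter_upwards [Filter.eventually_ge_atTop N] with M hM
    have h4 : (0 : ℝ) < ((M + p + 1).choose N : ℝ) := by
      exact_mod_cast Nat.choose_pos (by omega)
    have e1 : M + (p + 1) = M + p + 1 := by omega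
    rw [e1]
    rw [div_mul_div_comm, mul_comm (((M + p + 1 + 1).choose N : ℝ)), mul_div_mul_left _ _ h4.ne']

end Pool.Agent.Helper50.PE
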