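import Pool.Agent.Helper50.PE.St

/-!
A7: iterated degree lowering preserves strong log-concavity.
-/

set_option autoImplicit false

namespace Pool.Agent.Helper50.PE

open Finset

/-- absorption for binomial coefficients, over the reals -/
theorem succ_mul_choose_real (n k : ℕ) :
    ((k : ℝ) + 1) * (n.choose (k + 1) : ℝ) = ((n : ℝ) - k) * (n.choose k : ℝ) := by
  rcases Nat.lt_or_ge n k with h | h
  · rw [Nat.choose_eq_zero_of_lt h, Nat.choose_eq_zero_of_lt (by omega : n < k + 1)]
    simp
  · have := Nat.choose_succ_right_eq n k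
    have h2 : ((n.choose (k + 1) * (k + 1) : ℕ) : ℝ) = ((n.choose k * (n - k) : ℕ) : ℝ) := by
      rw [this]
    push_cast [Nat.cast_sub h] at h2
    linarith

theorem low_zero_of_lt (q M : ℕ) (c : ℕ → ℝ) (s : ℕ) (h : q < s) : low q M c s = 0 := by
  unfold low
  rw [if_neg (by omega)]

theorem low_of_le (q M : ℕ) (c : ℕ → ℝ) (s : ℕ) (h : s ≤ q) :
    low q M c s = ∑ I ∈ range (M + 1), K M q I s * c I := by
  unfold low
  rw [if_pos h]

theorem low_self (M : ℕ) (c : ℕ → ℝ) (s : ℕ) (h : s ≤ M) : low M M c s = c s := by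
  rw [low_of_le M M c s h]
  rw [Finset.sum_eq_single s]
  · unfold K
    simp
  · intro I hI hne
    rw [Finset.mem_range] at hI
    unfold K
    rcases Nat.lt_or_ge I s with h1 | h1
    · rw [Nat.choose_eq_zero_of_lt h1]; simp
    · have : M - I < M - s := by omega
      rw [Nat.choose_eq_zero_of_lt this]; simp
  · intro hs
    exact absurd (Finset.mem_range.2 (by omega)) hs

theorem Dop_low (q M : ℕ) (c : ℕ → ℝ) (s : ℕ) (hq : q + 1 ≤ M) :
    Dop (q + 1) (low (q + 1) M c) s = ((M : ℝ) - q) * low q M c s := by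
  unfold Dop
  rcases Nat.lt_or_ge q s with h | h
  · rw [low_zero_of_lt (q + 1) M c (s + 1) (by omega), low_zero_of_lt q M c s h]
    rcases Nat.lt_or_ge (q + 1) s with h2 | h2
    · rw [low_zero_of_lt (q + 1) M c s h2]; ring
    · have : s = q + 1 := by omega
      subst this
      push_cast
      ring
  · rw [low_of_le (q + 1) M c (s + 1) (by omega), low_of_le (q + 1) M c s (by omega),
      low_of_le q M c s h, Finset.mul_sum, Finset.mul_sum, Finset.mul_sum,
      ← Finset.sum_add_distrib]
    refine Finset.sum_congr rfl fun I hI => ?_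
    rw [Finset.mem_range] at hI
    unfold K
    have e1 : q + 1 - (s + 1) = q - s := by omega
    have e2 : q + 1 - s = (q - s) + 1 := by omega
    rw [e1, e2]
    have h1 := succ_mul_choose_real I s
    have h2 := succ_mul_choose_real (M - I) (q - s)
    rw [Nat.cast_sub (by omega : I ≤ M), Nat.cast_sub h] at h2
    push_cast
    have h3 : ((s : ℝ) + 1) * ((I.choose (s + 1) : ℝ) * ((M - I).choose (q - s) : ℝ) * c I)
        = (((I : ℝ) - s) * (I.choose s : ℝ)) * ((M - I).choose (q - s) : ℝ) * c I := by
      rw [← h1]; ring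
    have h4 : ((q : ℝ) + 1 - s) * ((I.choose s : ℝ) * ((M - I).choose (q - s + 1) : ℝ) * c I)
        = (I.choose s : ℝ) * (((M : ℝ) - I - ((q : ℝ) - s)) * ((M - I).choose (q - s) : ℝ))
          * c I := by
      rw [← h2]; ring
    rw [h3, h4]
    ring

theorem low_self_SLN (M : ℕ) (c : ℕ → ℝ) (hc : SLN c) : SLN (low M M c) := by
  obtain ⟨hnn, hlc⟩ := hc
  have hn : ∀ i, 0 ≤ low M M c i := by
    intro i
    rcases Nat.lt_or_ge M i with h | h
    · rw [low_zero_of_lt M M c i h]
    · rw [low_self M c i h]; exact hnn i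
  refine ⟨hn, fun i j hij => ?_⟩
  rcases Nat.lt_or_ge M (j + 2) with h | h
  · rw [low_zero_of_lt M M c (j + 2) h, mul_zero]
    exact mul_nonneg (hn _) (hn _)
  · rw [low_self M c (j + 2) h, low_self M c i (by omega), low_self M c (i + 1) (by omega),
      low_self M c (j + 1) (by omega)]
    exact hlc i j hij

theorem SLN_of_mul {a b : ℕ → ℝ} {r : ℝ} (hr : 0 < r) (hb : SLN b) (h : ∀ s, b s = r * a s) :
    SLN a := by
  obtain ⟨hnn, hlc⟩ := hb
  refine ⟨fun i => ?_, fun i j hij => ?_⟩
  · have := hnn i
    rw [h i] at this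
    exact nonneg_of_mul_nonneg_right this hr
  · have := hlc i j hij
    rw [h, h, h, h] at this
    have h2 : (r * r) * (a i * a (j + 2)) ≤ (r * r) * (a (i + 1) * a (j + 1)) := by
      linarith
    exact le_of_mul_le_mul_left h2 (mul_pos hr hr)

theorem pf_Low (hD : StD) : StLow := by
  intro q M c hqM hc
  have key : ∀ d q, q + d = M → SLN (low q M c) := by
    intro d
    induction d with
    | zero =>
      intro q hq
      have : q = M := by omega
      subst this
      exact low_self_SLN q c hc
    | succ d ih =>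
      intro q hq
      have h1 := ih (q + 1) (by omega)
      have h2 := hD (q + 1) (low (q + 1) M c) h1 (fun i hi => low_zero_of_lt _ _ _ _ hi)
      have hr : (0 : ℝ) < (M : ℝ) - q := by
        have : (q : ℝ) + 1 ≤ M := by exact_mod_cast (by omega : q + 1 ≤ M)
        linarith
      exact SLN_of_mul hr h2 (fun s => Dop_low q M c s (by omega))
  exact key (M - q) q (by omega)

end Pool.Agent.Helper50.PE
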