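import Pool.Agent.Helper50.PE.St

/-!
# Module A11: binomial sandwich for the discretised kernel
-/

set_option autoImplicit false

namespace Pool.Agent.Helper50.PE

open Finset

private theorem sand_vm (M a b : ℕ) :
    ∑ I ∈ range (M + 1), I.choose a * (M - I).choose b = (M + 1).choose (a + b + 1) := by
  induction M generalizing b with
  | zero =>
    rw [sum_range_one]
    rcases a with _ | a
    · rcases b with _ | b
      · simp
      · simp [Nat.choose_eq_zero_of_lt]
    · simp [Nat.choose_eq_zero_of_lt]
  | succ M ih =>
    rw [sum_range_succ]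
    rcases b with _ | b
    · have h := ih 0
      simp only [Nat.choose_zero_right, mul_one, add_zero] at h ⊢
      rw [h, Nat.choose_succ_succ (M + 1) a]
      ring
    · have h : ∀ I ∈ range (M + 1), I.choose a * (M + 1 - I).choose (b + 1) =
          I.choose a * (M - I).choose b + I.choose a * (M - I).choose (b + 1) := by
        intro I hI
        rw [mem_range] at hI
        have e : M + 1 - I = (M - I) + 1 := by omega
        rw [e, Nat.choose_succ_succ]
        ring
      rw [sum_congr rfl h, sum_add_distrib, ih b, ih (b + 1), Nat.sub_self]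
      have e1 : (M + 1 + 1).choose (a + (b + 1) + 1) =
          (M + 1).choose (a + b + 1) + (M + 1).choose (a + (b + 1) + 1) := by
        rw [Nat.choose_succ_succ (M + 1)]
        rfl
      rw [e1]
      simp

private theorem sand_low (I s t : ℕ) :
    (s + t).choose s * I.choose (s + t) ≤ I.choose s * I.choose t := by
  rcases Nat.lt_or_ge I (s + t) with h | h
  · rw [Nat.choose_eq_zero_of_lt h, mul_zero]
    exact Nat.zero_le _
  · have e := Nat.choose_mul (n := I) (k := s + t) (s := s) (by omega)
    rw [Nat.add_sub_cancel_left] at e
    rw [mul_comm, e]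
    exact Nat.mul_le_mul_left _ (Nat.choose_le_choose _ (Nat.sub_le _ _))

private theorem sand_up (I s t : ℕ) :
    I.choose s * I.choose t ≤ (s + t).choose s * (I + t).choose (s + t) := by
  have e := Nat.choose_mul (n := I + t) (k := s + t) (s := t) (by omega)
  rw [Nat.add_sub_cancel, Nat.add_sub_cancel] at e
  have e2 : (s + t).choose s = (s + t).choose t := Nat.choose_symm_of_eq_add rfl
  rw [e2, mul_comm ((s + t).choose t), e, mul_comm (I.choose s)]
  exact Nat.mul_le_mul_right _ (Nat.choose_le_choose _ (Nat.le_add_right _ _))

private theorem sand_cast (M p q s t : ℕ) : WM M p q s t =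
    ((∑ I ∈ range (M + 1), (I.choose s * I.choose t) *
      ((M - I).choose (q - s) * (M - I).choose (p - t)) : ℕ) : ℝ) := by
  unfold WM K
  push_cast
  refine sum_congr rfl fun I _ => ?_
  ring

private theorem sand_castW (p q s t n k : ℕ) : W p q s t * (n.choose k : ℝ) =
    (((s + t).choose s * ((q - s) + (p - t)).choose (q - s) * n.choose k : ℕ) : ℝ) := by
  unfold W
  push_cast
  ring

theorem pf_Sand : StSand := by
  intro M p q s t hp hq hs ht
  rw [sand_cast, sand_castW, sand_castW]
  have hsum : s + t + ((q - s) + (p - t)) = p + q := by omega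
  refine ⟨Nat.cast_le.2 ?_, Nat.cast_le.2 ?_⟩
  · have h := sand_vm M (s + t) ((q - s) + (p - t))
    rw [hsum] at h
    rw [← h, mul_sum]
    refine sum_le_sum fun I _ => ?_
    have h1 := sand_low I s t
    have h2 := sand_low (M - I) (q - s) (p - t)
    calc _ = ((s + t).choose s * I.choose (s + t)) *
          (((q - s) + (p - t)).choose (q - s) * (M - I).choose ((q - s) + (p - t))) := by ring
      _ ≤ _ := Nat.mul_le_mul h1 h2
  · have h := sand_vm (M + p) (s + t) ((q - s) + (p - t))
    rw [hsum] at h
    rw [← h]
    have h3 : ∑ I ∈ range (M + 1), (I + t).choose (s + t) *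
        ((M - I) + (p - t)).choose ((q - s) + (p - t)) ≤
        ∑ I ∈ range (M + p + 1), I.choose (s + t) * (M + p - I).choose ((q - s) + (p - t)) := by
      have h4 : ∑ I ∈ range (M + 1), (I + t).choose (s + t) *
          ((M - I) + (p - t)).choose ((q - s) + (p - t)) =
          ∑ I ∈ (range (M + 1)).image (fun I => I + t), I.choose (s + t) *
            (M + p - I).choose ((q - s) + (p - t)) := by
        rw [sum_image (fun a _ b _ h => by simpa using h)]
        refine sum_congr rfl fun I hI => ?_
        rw [mem_range] at hI
        have e : M + p - (I + t) = (M - I) + (p - t) := by omega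
        rw [e]
      rw [h4]
      refine sum_le_sum_of_subset ?_
      intro I hI
      rw [mem_image] at hI
      obtain ⟨J, hJ, rfl⟩ := hI
      rw [mem_range] at hJ ⊢
      omega
    refine le_trans ?_ (Nat.mul_le_mul_left _ h3)
    rw [mul_sum]
    refine sum_le_sum fun I _ => ?_
    have h1 := sand_up I s t
    have h2 := sand_up (M - I) (q - s) (p - t)
    calc _ ≤ _ := Nat.mul_le_mul h1 h2
      _ = _ := by ring

end Pool.Agent.Helper50.PE
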