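import Pool.Agent.Helper50.PE.St

/-!
# Module C4: the number of shuffles of two words with `k` descents
-/

set_option autoImplicit false

namespace Pool.Agent.Helper50.PE

open Finset
open Pool.Agent.Helper16.PEul (IsExt des leN numExt)

private theorem shuf_nil_left (m : List ℕ) : sh [] m = {m} := by
  rw [sh]

private theorem shuf_nil_right (l : List ℕ) : sh l [] = {l} := by
  cases l with
  | nil => rw [sh]
  | cons a l => rw [sh]; simp

private theorem shuf_cons (a : ℕ) (l : List ℕ) (b : ℕ) (m : List ℕ) : sh (a :: l) (b :: m) =
    (sh l (b :: m)).image (fun w => a :: w) ∪ (sh (a :: l) m).image (fun w => b :: w) := by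
  rw [sh]

private theorem shuf_comm : ∀ l m : List ℕ, sh l m = sh m l
  | [], m => by rw [shuf_nil_left, shuf_nil_right]
  | a :: l, [] => by rw [shuf_nil_left, shuf_nil_right]
  | a :: l, b :: m => by
    rw [shuf_cons, shuf_cons, union_comm, shuf_comm l (b :: m), shuf_comm (a :: l) m]
termination_by l m => l.length + m.length

/-- number of shuffles `w` of `l` and `m` such that `a :: w` has `k` descents -/
private def cA (a : ℕ) (l m : List ℕ) (k : ℕ) : ℕ :=
  ((sh l m).filter (fun w => des (a :: w) = k)).card

private theorem des_cons (x y : ℕ) (t : List ℕ) :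
    des (x :: y :: t) = (if x < y then 1 else 0) + des (y :: t) := rfl

private theorem asc_cons (x y : ℕ) (t : List ℕ) :
    asc (x :: y :: t) = (if x < y then 0 else 1) + asc (y :: t) := rfl

private theorem card_image (S : Finset (List ℕ)) (a : ℕ) (P : List ℕ → Prop) [DecidablePred P] :
    ((S.image (fun w => a :: w)).filter P).card = (S.filter (fun w => P (a :: w))).card := by
  rw [filter_image, card_image_of_injective _ (fun x y h => by simpa using h)]

private theorem card_union (l m : List ℕ) (a b : ℕ) (hab : a ≠ b) (P : List ℕ → Prop)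
    [DecidablePred P] : ((sh (a :: l) (b :: m)).filter P).card =
      ((sh l (b :: m)).filter (fun w => P (a :: w))).card +
        ((sh m (a :: l)).filter (fun w => P (b :: w))).card := by
  rw [shuf_cons, filter_union, card_union_of_disjoint, card_image, card_image, shuf_comm (a :: l) m]
  rw [disjoint_left]
  intro w hw hw'
  rw [mem_filter, mem_image] at hw hw'
  obtain ⟨⟨x, _, hx⟩, _⟩ := hw
  obtain ⟨⟨y, _, hy⟩, _⟩ := hw'
  rw [← hx] at hy
  exact hab (by simpa using (List.cons.inj hy).1.symm)

/-- shifted counting function -/
private def sf (d : ℕ) (g : ℕ → ℕ) (k : ℕ) : ℕ := if d ≤ k then g (k - d) else 0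

private theorem card_shift (a c : ℕ) (l m : List ℕ) (k : ℕ) :
    ((sh l m).filter (fun w => des (a :: c :: w) = k)).card =
      sf (if a < c then 1 else 0) (cA c l m) k := by
  unfold sf cA
  split_ifs with h h' h'
  · congr 1
    refine filter_congr fun w _ => ?_
    rw [des_cons, if_pos h]
    omega
  · rw [card_eq_zero, filter_eq_empty_iff]
    intro w _
    rw [des_cons, if_pos h]
    omega
  · congr 1
    refine filter_congr fun w _ => ?_
    rw [des_cons, if_neg h]
    omega
  · omega

private theorem cA_rec (a c b : ℕ) (l m : List ℕ) (hcb : c ≠ b) (k : ℕ) :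
    cA a (c :: l) (b :: m) k = sf (if a < c then 1 else 0) (cA c l (b :: m)) k +
      sf (if a < b then 1 else 0) (cA b m (c :: l)) k := by
  unfold cA
  rw [card_union l m c b hcb]
  rw [card_shift, card_shift]
  rfl

private theorem cA_nil (a b : ℕ) (m : List ℕ) (k : ℕ) :
    cA a [] (b :: m) k = if (if a < b then 1 else 0) + des (b :: m) = k then 1 else 0 := by
  unfold cA
  rw [shuf_nil_left, filter_singleton, des_cons]
  split_ifs <;> simp

private theorem bsh_succ (n i k : ℕ) : bsh (n + 1) i k = bsh n i k + bsh n (i + 1) k := by
  unfold bsh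
  rcases Nat.lt_trichotomy k i with h | h | h
  · rw [if_neg (by omega), if_neg (by omega), if_neg (by omega)]
  · subst h
    simp
  · rw [if_pos (by omega), if_pos (by omega), if_pos (by omega)]
    obtain ⟨d, rfl⟩ := Nat.exists_eq_add_of_lt h
    have e1 : i + d + 1 - i = d + 1 := by omega
    have e2 : i + d + 1 - (i + 1) = d := by omega
    rw [e1, e2, Nat.choose_succ_succ]
    simp only [Nat.succ_eq_add_one]
    ring

private theorem bsh_shift (n i k : ℕ) : bsh n (i + 1) (k + 1) = bsh n i k := by
  unfold bsh
  by_cases h : i ≤ k
  · rw [if_pos h, if_pos (by omega)]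
    congr 1
    omega
  · rw [if_neg h, if_neg (by omega)]

private theorem bsh_zero (n i : ℕ) : bsh n (i + 1) 0 = 0 := by
  unfold bsh
  rw [if_neg (by omega)]

/-- the formula for the first kind of words -/
private def fA (a b i i' j j' k : ℕ) : ℕ :=
  if a < b then bsh (j' + i) (j + 1) k * bsh (i' + 1 + j) i k
  else bsh (j' + 1 + i) j k * bsh (i' + j) i k

private theorem fA_tot (a b i i' j j' k : ℕ) (h : a ≠ b) :
    fA a b i i' j j' k + fA b a j j' i i' k =
      bsh (j' + 1 + i) j k * bsh (i' + 1 + j) i k := by
  unfold fA
  rcases lt_or_gt_of_ne h with h | h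
  · rw [if_pos h, if_neg (by omega)]
    have e1 : j' + 1 + i = (j' + i) + 1 := by ring
    rw [e1, bsh_succ (j' + i) j k]
    ring
  · rw [if_neg (by omega), if_pos h]
    have e1 : i' + 1 + j = (i' + j) + 1 := by ring
    rw [e1, bsh_succ (i' + j) i k]
    ring

private theorem fA_base (a b j j' k : ℕ) :
    fA a b 0 0 j j' k = if (if a < b then 1 else 0) + j = k then 1 else 0 := by
  unfold fA bsh
  by_cases h : a < b
  · simp only [h, if_true]
    rcases Nat.lt_trichotomy k (j + 1) with h1 | h1 | h1
    · rw [if_neg (by omega), zero_mul, if_neg (by omega)]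
    · subst h1
      simp [add_comm]
    · rw [if_neg (by omega : ¬ (1 + j = k)), if_pos (Nat.zero_le k),
        Nat.choose_eq_zero_of_lt (by omega : 0 + 1 + j < k - 0), mul_zero]
  · simp only [h, if_false]
    rcases Nat.lt_trichotomy k j with h1 | h1 | h1
    · rw [if_neg (by omega), zero_mul, if_neg (by omega)]
    · subst h1
      simp
    · rw [if_neg (by omega : ¬ (0 + j = k)), if_pos (Nat.zero_le k),
        Nat.choose_eq_zero_of_lt (by omega : 0 + j < k - 0), mul_zero]

private theorem fA_step (a b c i i' j j' k : ℕ) (hab : a ≠ b) (hac : a ≠ c) (hcb : c ≠ b) :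
    sf (if a < c then 1 else 0) (fA c b i i' j j') k +
      sf (if a < b then 1 else 0) (fA b c j j' i i') k =
    fA a b ((if a < c then 1 else 0) + i) ((if a < c then 0 else 1) + i') j j' k := by
  by_cases h1 : a < b
  · by_cases h2 : a < c
    · simp only [h1, h2, if_true]
      rcases k with _ | k
      · unfold sf fA
        rw [if_neg (by omega), if_neg (by omega), if_pos h1, bsh_zero, zero_mul, add_zero]
      · have e : sf 1 (fA c b i i' j j') (k + 1) + sf 1 (fA b c j j' i i') (k + 1) =
            fA c b i i' j j' k + fA b c j j' i i' k := by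
          unfold sf
          rw [if_pos (by omega), if_pos (by omega), Nat.add_sub_cancel]
        rw [e, fA_tot c b i i' j j' k hcb]
        unfold fA
        rw [if_pos h1, bsh_shift]
        have e1 : (1 + i) = i + 1 := by ring
        rw [e1, bsh_shift]
        have e2 : j' + (i + 1) = j' + 1 + i := by ring
        have e3 : 0 + i' + 1 + j = i' + 1 + j := by ring
        rw [e2, e3]
    · have h3 : c < b := by omega
      simp only [h1, h2, if_true, if_false]
      have e1 : sf 0 (fA c b i i' j j') k = fA c b i i' j j' k := by
        unfold sf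
        rw [if_pos (Nat.zero_le k), Nat.sub_zero]
      have e2 : sf 1 (fA b c j j' i i') k =
          bsh (i' + 1 + j) (i + 1) k * bsh (j' + i) (j + 1) k := by
        rcases k with _ | k
        · unfold sf
          rw [if_neg (by omega), bsh_zero, zero_mul]
        · unfold sf
          rw [if_pos (by omega), Nat.add_sub_cancel, bsh_shift, bsh_shift]
          unfold fA
          rw [if_neg (by omega)]
      rw [e1, e2]
      unfold fA
      rw [if_pos h3, if_pos h1]
      have e3 : 1 + i' + 1 + j = (i' + 1 + j) + 1 := by ring
      have e4 : 0 + i = i := by ring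
      rw [e3, e4, bsh_succ (i' + 1 + j) i k]
      ring
  · have h1' : b < a := by omega
    by_cases h2 : a < c
    · have h3 : b < c := by omega
      simp only [h1, h2, if_true, if_false]
      have e1 : sf 0 (fA b c j j' i i') k = fA b c j j' i i' k := by
        unfold sf
        rw [if_pos (Nat.zero_le k), Nat.sub_zero]
      have e2 : sf 1 (fA c b i i' j j') k =
          bsh (j' + 1 + i) (j + 1) k * bsh (i' + j) (i + 1) k := by
        rcases k with _ | k
        · unfold sf
          rw [if_neg (by omega), bsh_zero, zero_mul]
        · unfold sf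
          rw [if_pos (by omega), Nat.add_sub_cancel, bsh_shift, bsh_shift]
          unfold fA
          rw [if_neg (by omega)]
      rw [e1, e2]
      unfold fA
      rw [if_pos h3, if_neg h1]
      have e3 : j' + 1 + (1 + i) = (j' + 1 + i) + 1 := by ring
      have e4 : 0 + i' + j = i' + j := by ring
      have e5 : 1 + i = i + 1 := by ring
      rw [e3, e4, e5, bsh_succ (j' + 1 + i) j k]
      ring
    · simp only [h1, h2, if_false]
      have e : sf 0 (fA c b i i' j j') k + sf 0 (fA b c j j' i i') k =
          fA c b i i' j j' k + fA b c j j' i i' k := by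
        unfold sf
        rw [if_pos (Nat.zero_le k), if_pos (Nat.zero_le k), Nat.sub_zero]
      rw [e, fA_tot c b i i' j j' k hcb]
      unfold fA
      rw [if_neg h1]
      have e3 : 1 + i' + j = i' + 1 + j := by ring
      have e4 : 0 + i = i := by ring
      rw [e3, e4]

private theorem cA_main : ∀ (n a : ℕ) (l : List ℕ) (b : ℕ) (m : List ℕ),
    l.length + m.length = n → (a :: l).Nodup → (b :: m).Nodup →
    (∀ x ∈ a :: l, x ∉ b :: m) → ∀ k, cA a l (b :: m) k =
      fA a b (des (a :: l)) (asc (a :: l)) (des (b :: m)) (asc (b :: m)) k := by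
  intro n
  induction n using Nat.strong_induction_on with
  | _ n ih =>
    intro a l b m hn hl hm hd k
    have hab : a ≠ b := fun h => hd a List.mem_cons_self (h ▸ List.mem_cons_self)
    cases l with
    | nil =>
      rw [cA_nil]
      have := fA_base a b (des (b :: m)) (asc (b :: m)) k
      rw [← this]
      rfl
    | cons c l =>
      have hcb : c ≠ b := fun h => hd c (by simp) (h ▸ List.mem_cons_self)
      have hac : a ≠ c := by
        intro h
        rw [List.nodup_cons] at hl
        exact hl.1 (h ▸ List.mem_cons_self)
      have hl' : (c :: l).Nodup := (List.nodup_cons.1 hl).2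
      have hn' : l.length + 1 + m.length = n := by simpa using hn
      have h1 : cA c l (b :: m) =
          fA c b (des (c :: l)) (asc (c :: l)) (des (b :: m)) (asc (b :: m)) := by
        funext k'
        exact ih (l.length + m.length) (by omega) c l b m rfl hl' hm
          (fun x hx => hd x (List.mem_cons_of_mem _ hx)) k'
      have h2 : cA b m (c :: l) =
          fA b c (des (b :: m)) (asc (b :: m)) (des (c :: l)) (asc (c :: l)) := by
        funext k'
        exact ih (m.length + l.length) (by omega) b m c l rfl hm hl'
          (fun x hx hx' => hd x (List.mem_cons_of_mem _ hx') hx) k'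
      rw [cA_rec a c b l m hcb, h1, h2, fA_step a b c _ _ _ _ k hab hac hcb]
      rfl

theorem pf_Shuf : StShuf := by
  intro l m hl0 hm0 hl hm hd k
  cases l with
  | nil => exact absurd rfl hl0
  | cons a l =>
    cases m with
    | nil => exact absurd rfl hm0
    | cons b m =>
      have hab : a ≠ b := fun h => hd a List.mem_cons_self (h ▸ List.mem_cons_self)
      rw [card_union l m a b hab (fun w => des w = k)]
      have h1 := cA_main _ a l b m rfl hl hm hd k
      have h2 := cA_main _ b m a l rfl hm hl (fun x hx hx' => hd x hx' hx) k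
      unfold cA at h1 h2
      rw [h1, h2, fA_tot _ _ _ _ _ _ _ hab]

end Pool.Agent.Helper50.PE
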