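import Pool.Agent.Helper50.PE.St

/-!
Module C5: the words of a disjoint union are the shuffles.
-/

set_option autoImplicit false

namespace Pool.Agent.Helper50.PE

open Finset
open Pool.Agent.Helper16.PEul (IsExt des leN numExt)

theorem c5_nil_mem_sh (l m : List ℕ) : [] ∈ sh l m ↔ l = [] ∧ m = [] := by
  cases l with
  | nil =>
    rw [sh, Finset.mem_singleton]
    exact ⟨fun h => ⟨rfl, h.symm⟩, fun h => h.2.symm⟩
  | cons a l =>
    cases m with
    | nil => simp [sh]
    | cons b m => simp [sh]

theorem c5_cons_mem_sh (x : ℕ) (w l m : List ℕ) : x :: w ∈ sh l m ↔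
    (∃ l', l = x :: l' ∧ w ∈ sh l' m) ∨ (∃ m', m = x :: m' ∧ w ∈ sh l m') := by
  cases l with
  | nil =>
    rw [sh, Finset.mem_singleton]
    constructor
    · intro h
      exact Or.inr ⟨w, h.symm, by rw [sh, Finset.mem_singleton]⟩
    · rintro (⟨l', h, -⟩ | ⟨m', h, h'⟩)
      · cases h
      · rw [sh, Finset.mem_singleton] at h'
        rw [h, h']
  | cons a l =>
    cases m with
    | nil =>
      have hs : ∀ l : List ℕ, sh l [] = {l} := by
        intro l
        cases l <;> simp [sh]
      rw [hs, Finset.mem_singleton]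
      constructor
      · intro h
        exact Or.inl ⟨w, h.symm, by rw [hs, Finset.mem_singleton]⟩
      · rintro (⟨l', h, h'⟩ | ⟨m', h, -⟩)
        · rw [hs, Finset.mem_singleton] at h'
          rw [h, h']
        · cases h
    | cons b m =>
      rw [sh, Finset.mem_union, Finset.mem_image, Finset.mem_image]
      constructor
      · rintro (⟨v, hv, h⟩ | ⟨v, hv, h⟩)
        · left
          obtain ⟨h1, h2⟩ := List.cons.inj h
          subst h1
          subst h2
          exact ⟨l, rfl, hv⟩
        · right
          obtain ⟨h1, h2⟩ := List.cons.inj h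
          subst h1
          subst h2
          exact ⟨m, rfl, hv⟩
      · rintro (⟨l', h, h'⟩ | ⟨m', h, h'⟩)
        · left
          obtain ⟨h1, h2⟩ := List.cons.inj h
          subst h1
          subst h2
          exact ⟨w, h', rfl⟩
        · right
          obtain ⟨h1, h2⟩ := List.cons.inj h
          subst h1
          subst h2
          exact ⟨w, h', rfl⟩

theorem c5_mem_sh {S T : Finset ℕ} (hST : Disjoint S T) (w : List ℕ) :
    ∀ l m : List ℕ, (∀ x ∈ l, x ∈ S) → (∀ x ∈ m, x ∈ T) →
    (w ∈ sh l m ↔ w.filter (fun x => decide (x ∈ S)) = l ∧ w.filter (fun x => decide (x ∈ T)) = m ∧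
      ∀ x ∈ w, x ∈ S ∨ x ∈ T) := by
  induction w with
  | nil =>
    intro l m _ _
    rw [c5_nil_mem_sh]
    simp only [List.filter_nil, List.not_mem_nil, false_implies, implies_true, and_true]
    exact ⟨fun h => ⟨h.1.symm, h.2.symm⟩, fun h => ⟨h.1.symm, h.2.symm⟩⟩
  | cons x w ih =>
    intro l m hl hm
    rw [c5_cons_mem_sh]
    constructor
    · rintro (⟨l', h, h'⟩ | ⟨m', h, h'⟩)
      · subst h
        have hxS : x ∈ S := hl x (by simp)
        have hxT : x ∉ T := Finset.disjoint_left.1 hST hxS
        obtain ⟨h1, h2, h3⟩ := (ih l' m (fun y hy => hl y (List.mem_cons_of_mem _ hy)) hm).1 h'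
        refine ⟨?_, ?_, ?_⟩
        · rw [List.filter_cons_of_pos (by simpa using hxS), h1]
        · rw [List.filter_cons_of_neg (by simpa using hxT), h2]
        · intro y hy
          rcases List.mem_cons.1 hy with rfl | hy
          · exact Or.inl hxS
          · exact h3 y hy
      · subst h
        have hxT : x ∈ T := hm x (by simp)
        have hxS : x ∉ S := fun h => Finset.disjoint_left.1 hST h hxT
        obtain ⟨h1, h2, h3⟩ := (ih l m' hl (fun y hy => hm y (List.mem_cons_of_mem _ hy))).1 h'
        refine ⟨?_, ?_, ?_⟩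
        · rw [List.filter_cons_of_neg (by simpa using hxS), h1]
        · rw [List.filter_cons_of_pos (by simpa using hxT), h2]
        · intro y hy
          rcases List.mem_cons.1 hy with rfl | hy
          · exact Or.inr hxT
          · exact h3 y hy
    · rintro ⟨h1, h2, h3⟩
      have h3' : ∀ y ∈ w, y ∈ S ∨ y ∈ T := fun y hy => h3 y (List.mem_cons_of_mem _ hy)
      rcases h3 x (by simp) with hxS | hxT
      · left
        have hxT : x ∉ T := Finset.disjoint_left.1 hST hxS
        rw [List.filter_cons_of_pos (by simpa using hxS)] at h1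
        rw [List.filter_cons_of_neg (by simpa using hxT)] at h2
        refine ⟨_, h1.symm, ?_⟩
        refine (ih _ m ?_ hm).2 ⟨rfl, h2, h3'⟩
        intro y hy
        rw [← h1] at hl
        exact hl y (List.mem_cons_of_mem _ hy)
      · right
        have hxS : x ∉ S := fun h => Finset.disjoint_left.1 hST h hxT
        rw [List.filter_cons_of_neg (by simpa using hxS)] at h1
        rw [List.filter_cons_of_pos (by simpa using hxT)] at h2
        refine ⟨_, h2.symm, ?_⟩
        refine (ih l _ hl ?_).2 ⟨h1, rfl, h3'⟩
        intro y hy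
        rw [← h2] at hm
        exact hm y (List.mem_cons_of_mem _ hy)

theorem c5_isExt_filter {le : ℕ → ℕ → Prop} {U S : Finset ℕ} {w : List ℕ} (h : IsExt le U w)
    (hS : S ⊆ U) : IsExt le S (w.filter (fun x => decide (x ∈ S))) := by
  refine ⟨h.nodup.filter _, ?_, h.ord.filter _⟩
  ext x
  rw [List.mem_toFinset, List.mem_filter, decide_eq_true_iff]
  constructor
  · exact fun hx => hx.2
  · intro hx
    refine ⟨?_, hx⟩
    have := hS hx
    rw [← h.set, List.mem_toFinset] at this
    exact this

theorem c5_isExt {le : ℕ → ℕ → Prop} {S T : Finset ℕ} (hST : Disjoint S T)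
    (hinc : ∀ x ∈ S, ∀ y ∈ T, ¬ le x y ∧ ¬ le y x) (w : List ℕ) :
    IsExt le (S ∪ T) w ↔ IsExt le S (w.filter (fun x => decide (x ∈ S))) ∧
      IsExt le T (w.filter (fun x => decide (x ∈ T))) ∧ ∀ x ∈ w, x ∈ S ∨ x ∈ T := by
  constructor
  · intro h
    refine ⟨c5_isExt_filter h Finset.subset_union_left,
      c5_isExt_filter h Finset.subset_union_right, ?_⟩
    intro x hx
    have : x ∈ w.toFinset := List.mem_toFinset.2 hx
    rw [h.set, Finset.mem_union] at this
    exact this
  · rintro ⟨h1, h2, h3⟩
    refine ⟨?_, ?_, ?_⟩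
    · rw [List.nodup_iff_count_le_one]
      intro x
      by_cases hx : x ∈ w
      · rcases h3 x hx with hS | hT
        · rw [← List.count_filter (p := fun x => decide (x ∈ S)) (by simpa using hS)]
          exact List.nodup_iff_count_le_one.1 h1.nodup x
        · rw [← List.count_filter (p := fun x => decide (x ∈ T)) (by simpa using hT)]
          exact List.nodup_iff_count_le_one.1 h2.nodup x
      · rw [List.count_eq_zero_of_not_mem hx]
        exact Nat.zero_le _
    · ext x
      rw [List.mem_toFinset, Finset.mem_union]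
      constructor
      · exact h3 x
      · rintro (hx | hx)
        · rw [← h1.set, List.mem_toFinset, List.mem_filter] at hx
          exact hx.1
        · rw [← h2.set, List.mem_toFinset, List.mem_filter] at hx
          exact hx.1
    · rw [List.pairwise_iff_forall_sublist]
      intro x y hxy
      have hx := h3 x (hxy.subset (by simp))
      have hy := h3 y (hxy.subset (by simp))
      rcases hx with hx | hx <;> rcases hy with hy | hy
      · have := hxy.filter (fun x => decide (x ∈ S))
        rw [List.filter_cons_of_pos (by simpa using hx),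
          List.filter_cons_of_pos (by simpa using hy), List.filter_nil] at this
        exact List.pairwise_iff_forall_sublist.1 h1.ord this
      · exact (hinc x hx y hy).1
      · exact (hinc y hy x hx).2
      · have := hxy.filter (fun x => decide (x ∈ T))
        rw [List.filter_cons_of_pos (by simpa using hx),
          List.filter_cons_of_pos (by simpa using hy), List.filter_nil] at this
        exact List.pairwise_iff_forall_sublist.1 h2.ord this

theorem pf_Split : StSplit := by
  intro le S T hST hinc k
  classical
  unfold nd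
  rw [Finset.card_eq_sum_card_fiberwise (f := fun w : List ℕ =>
    (w.filter (fun x => decide (x ∈ S)), w.filter (fun x => decide (x ∈ T))))
    (t := exts le S ×ˢ exts le T)]
  · rw [Finset.sum_product]
    refine Finset.sum_congr rfl fun l hl => Finset.sum_congr rfl fun m hm => ?_
    congr 1
    ext w
    have hlS : ∀ x ∈ l, x ∈ S := by
      intro x hx
      rw [← (mem_exts.1 hl).set, List.mem_toFinset]
      exact hx
    have hmT : ∀ x ∈ m, x ∈ T := by
      intro x hx
      rw [← (mem_exts.1 hm).set, List.mem_toFinset]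
      exact hx
    rw [Finset.mem_filter, Finset.mem_filter, Finset.mem_filter, mem_exts, c5_isExt hST hinc,
      c5_mem_sh hST w l m hlS hmT, Prod.mk.injEq]
    constructor
    · rintro ⟨⟨⟨-, -, h3⟩, h4⟩, h5, h6⟩
      exact ⟨⟨h5, h6, h3⟩, h4⟩
    · rintro ⟨⟨h5, h6, h3⟩, h4⟩
      refine ⟨⟨⟨?_, ?_, h3⟩, h4⟩, h5, h6⟩
      · rw [h5]; exact mem_exts.1 hl
      · rw [h6]; exact mem_exts.1 hm
  · intro w hw
    rw [Finset.mem_coe, Finset.mem_filter, mem_exts, c5_isExt hST hinc] at hw
    rw [Finset.mem_coe, Finset.mem_product]
    exact ⟨mem_exts.2 hw.1.1, mem_exts.2 hw.1.2.1⟩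

end Pool.Agent.Helper50.PE
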