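import Pool.Agent.Helper50.PE.St

/-!
C3: log-concavity without gaps is strong log-concavity.
-/

set_option autoImplicit false

namespace Pool.Agent.Helper50.PE

open Finset

theorem pf_Strong : StStrong := by
  intro A hlc hgap
  have key : ∀ m i, A i * A (i + m + 2) ≤ A (i + 1) * A (i + m + 1) := by
    intro m
    induction m with
    | zero =>
      intro i
      have := hlc i
      rw [add_zero]
      nlinarith [this]
    | succ m ih =>
      intro i
      rcases Nat.eq_zero_or_pos (A i) with h0 | h0
      · rw [h0, zero_mul]; exact Nat.zero_le _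
      rcases Nat.eq_zero_or_pos (A (i + (m + 1) + 2)) with h1 | h1
      · rw [h1, mul_zero]; exact Nat.zero_le _
      have hx : 0 < A (i + m + 2) :=
        hgap i (i + m + 2) (i + (m + 1) + 2) (by omega) (by omega) h0 h1
      have e1 : i + (m + 1) + 2 = i + m + 1 + 2 := by omega
      have e2 : i + (m + 1) + 1 = i + m + 2 := by omega
      rw [e1, e2] at *
      have h2 := hlc (i + m + 1)
      have h3 := ih i
      have e3 : i + m + 1 + 1 = i + m + 2 := rfl
      rw [e3] at h2
      -- A i A(n+1) , n = i+m+2 ; use A i A n ≤ A (i+1) A(n-1), A(n-1)A(n+1) ≤ A n ^2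
      have hp : A i * A (i + m + 1 + 2) * A (i + m + 2) ≤
          A (i + 1) * A (i + m + 2) * A (i + m + 2) := by
        calc A i * A (i + m + 1 + 2) * A (i + m + 2)
            = (A i * A (i + m + 2)) * A (i + m + 1 + 2) := by ring
          _ ≤ (A (i + 1) * A (i + m + 1)) * A (i + m + 1 + 2) := Nat.mul_le_mul_right _ h3
          _ = A (i + 1) * (A (i + m + 1) * A (i + m + 1 + 2)) := by ring
          _ ≤ A (i + 1) * (A (i + m + 2) ^ 2) := Nat.mul_le_mul_left _ h2
          _ = A (i + 1) * A (i + m + 2) * A (i + m + 2) := by ring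
      exact Nat.le_of_mul_le_mul_right hp hx
  intro i j hij
  obtain ⟨m, rfl⟩ := Nat.exists_eq_add_of_le hij
  exact key m i

end Pool.Agent.Helper50.PE
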