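import Pool.Agent.Helper50.PE.St

/-! Module A4: degree elevation preserves strong log-concavity. -/

set_option autoImplicit false

namespace Pool.Agent.Helper50.PE

private theorem two_mul_le_add {x y z : ℝ} (hx : 0 ≤ x) (hy : 0 ≤ y) (h : z * z ≤ x * y) :
    2 * z ≤ x + y := by
  by_contra hc
  have h1 : x + y < 2 * z := not_le.1 hc
  have h2 : (x + y) * (x + y) < (2 * z) * (2 * z) :=
    mul_self_lt_mul_self (add_nonneg hx hy) h1
  nlinarith [sq_nonneg (x - y)]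

private theorem u_nonneg {M : ℕ} {b : ℕ → ℝ} (hb : SLN b) (h0 : ∀ i, M < i → b i = 0) (I : ℕ) :
    0 ≤ Uop M b I := by
  unfold Uop
  by_cases h : I ≤ M + 1
  · have h1 : (0 : ℝ) ≤ (M : ℝ) + 1 - I := by
      have : (I : ℝ) ≤ (M : ℝ) + 1 := by exact_mod_cast h
      linarith
    exact add_nonneg (mul_nonneg (Nat.cast_nonneg _) (hb.1 _)) (mul_nonneg h1 (hb.1 _))
  · rw [h0 (I - 1) (by omega), h0 I (by omega), mul_zero, mul_zero, add_zero]

private theorem u_main {i j m p a b0 b1 c0 c1 c2 : ℝ} (hi : 0 ≤ i) (hij : i ≤ j) (hp : 0 ≤ p)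
    (hm : m = p + 1 + j) (hb0 : 0 ≤ b0) (hb1 : 0 ≤ b1) (hc0 : 0 ≤ c0) (hc1 : 0 ≤ c1)
    (h1 : 0 ≤ i * (b0 * c0 - a * c1)) (h2 : b0 * c2 ≤ b1 * c1) (h3 : b0 * c1 ≤ b1 * c0)
    (h4 : 0 ≤ i * (b0 * c1 - a * c2)) :
    (i * a + (m + 1 - i) * b0) * ((j + 2) * c1 + (m - 1 - j) * c2) ≤
      ((i + 1) * b0 + (m - i) * b1) * ((j + 1) * c0 + (m - j) * c1) := by
  have h5 : 2 * (b0 * c1) ≤ b0 * c0 + b1 * c1 := by
    refine two_mul_le_add (mul_nonneg hb0 hc0) (mul_nonneg hb1 hc1) ?_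
    have h6 := mul_le_mul_of_nonneg_left h3 (mul_nonneg hb0 hc1)
    linarith [h6, mul_comm b0 c0]
  have e1 : 0 ≤ (j + 2) * (i * (b0 * c0 - a * c1)) := mul_nonneg (by linarith) h1
  have e2 : 0 ≤ (m + 1 - i) * p * (b1 * c1 - b0 * c2) :=
    mul_nonneg (mul_nonneg (by linarith) hp) (by linarith)
  have e3 : 0 ≤ (m - i) * (j + 1) * (b1 * c0 - b0 * c1) :=
    mul_nonneg (mul_nonneg (by linarith) (by linarith)) (by linarith)
  have e4 : 0 ≤ p * (i * (b0 * c1 - a * c2)) := mul_nonneg hp h4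
  have e5 : 0 ≤ (j - i + 1) * (b0 * c0 + b1 * c1 - 2 * (b0 * c1)) :=
    mul_nonneg (by linarith) (by linarith)
  subst hm
  nlinarith [e1, e2, e3, e4, e5]

/-- A4 -/
theorem pf_U : StU := by
  intro M b hb h0
  refine ⟨u_nonneg hb h0, fun i j hij => ?_⟩
  by_cases hj : j + 2 ≤ M + 1
  · unfold Uop
    have hp : (0 : ℝ) ≤ (M : ℝ) - 1 - j := by
      have : ((j + 2 : ℕ) : ℝ) ≤ ((M + 1 : ℕ) : ℝ) := by exact_mod_cast hj
      push_cast at this
      linarith
    have hij' : (i : ℝ) ≤ (j : ℝ) := by exact_mod_cast hij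
    have h3 : b i * b (j + 1) ≤ b (i + 1) * b j := by
      rcases Nat.eq_or_lt_of_le hij with h | h
      · subst h
        rw [mul_comm]
      · obtain ⟨k, rfl⟩ : ∃ k, j = k + 1 := ⟨j - 1, by omega⟩
        exact hb.2 i k (by omega)
    have h1 : 0 ≤ (i : ℝ) * (b i * b j - b (i - 1) * b (j + 1)) := by
      rcases i with _ | i
      · simp
      · obtain ⟨k, rfl⟩ : ∃ k, j = k + 1 := ⟨j - 1, by omega⟩
        have := hb.2 i k (by omega)
        exact mul_nonneg (Nat.cast_nonneg _) (by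
          rw [Nat.add_sub_cancel]
          linarith)
    have h4 : 0 ≤ (i : ℝ) * (b i * b (j + 1) - b (i - 1) * b (j + 2)) := by
      rcases i with _ | i
      · simp
      · have := hb.2 i j (by omega)
        exact mul_nonneg (Nat.cast_nonneg _) (by
          rw [Nat.add_sub_cancel]
          linarith)
    have key := u_main (i := (i : ℝ)) (j := (j : ℝ)) (m := (M : ℝ)) (p := (M : ℝ) - 1 - j)
      (a := b (i - 1)) (b0 := b i) (b1 := b (i + 1)) (c0 := b j) (c1 := b (j + 1))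
      (c2 := b (j + 2)) (Nat.cast_nonneg _) hij' hp (by ring) (hb.1 _) (hb.1 _) (hb.1 _) (hb.1 _)
      h1 (hb.2 i j hij) h3 h4
    have e1 : j + 2 - 1 = j + 1 := by omega
    have e2 : i + 1 - 1 = i := by omega
    have e3 : j + 1 - 1 = j := by omega
    rw [e1, e2, e3]
    push_cast
    have t1 : ((j : ℝ) + 2) * b (j + 1) + ((M : ℝ) + 1 - ((j : ℝ) + 2)) * b (j + 2) =
        ((j : ℝ) + 2) * b (j + 1) + ((M : ℝ) - 1 - j) * b (j + 2) := by ring
    have t2 : ((i : ℝ) + 1) * b i + ((M : ℝ) + 1 - ((i : ℝ) + 1)) * b (i + 1) =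
        ((i : ℝ) + 1) * b i + ((M : ℝ) - i) * b (i + 1) := by ring
    have t3 : ((j : ℝ) + 1) * b j + ((M : ℝ) + 1 - ((j : ℝ) + 1)) * b (j + 1) =
        ((j : ℝ) + 1) * b j + ((M : ℝ) - j) * b (j + 1) := by ring
    rw [t1, t2, t3]
    exact key
  · have hz : Uop M b (j + 2) = 0 := by
      unfold Uop
      rw [h0 (j + 2 - 1) (by omega), h0 (j + 2) (by omega), mul_zero, mul_zero, add_zero]
    rw [hz, mul_zero]
    exact mul_nonneg (u_nonneg hb h0 _) (u_nonneg hb h0 _)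

end Pool.Agent.Helper50.PE
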