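import Pool.Agent.Helper50.PE.Comb
import Pool.Agent.Helper50.PE.U
import Pool.Agent.Helper50.PE.D
import Pool.Agent.Helper50.PE.Beta
import Pool.Agent.Helper50.PE.Low
import Pool.Agent.Helper50.PE.Sand
import Pool.Agent.Helper50.PE.Lim
import Pool.Agent.Helper50.PE.Gap
import Pool.Agent.Helper50.PE.Strong
import Pool.Agent.Helper50.PE.Shuf
import Pool.Agent.Helper50.PE.Split
import Pool.Agent.Helper14.PE.Relab
import Pool.Agent.Helper14.PE.Ord

/-!
The final statements on subsets of a labelled poset.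
-/

set_option autoImplicit false

namespace Pool.Agent.Helper50.PE

open Finset
open Pool.Agent.Helper16.PEul (IsExt des leN numExt leN_val)

/-- closure of strong log-concavity under disjoint unions, without hypotheses -/
theorem closure' {le : ℕ → ℕ → Prop} {S T : Finset ℕ}
    (hd : Disjoint S T) (hinc : ∀ x ∈ S, ∀ y ∈ T, ¬ le x y ∧ ¬ le y x)
    (h1 : SLN (fun k => (nd le S k : ℝ))) (h2 : SLN (fun k => (nd le T k : ℝ))) :
    SLN (fun k => (nd le (S ∪ T) k : ℝ)) :=
  closure (pf_Beta pf_U) (pf_Low pf_D) pf_Sand pf_Lim pf_Shuf pf_Split hd hinc h1 h2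

/-- convolution on the natural numbers -/
theorem sln_conv {A B : ℕ → ℝ} (hA : SLN A) (hB : SLN B) {n q : ℕ} (hn : ∀ i, n ≤ i → A i = 0)
    (hq : ∀ i, q < i → B i = 0) :
    SLN (fun k => ∑ i ∈ range (k + 1), A i * B (k - i)) := by
  have h := (hA.toZ.conv hB.toZ q (fun z hz => toZ_neg _ hz) (fun z hz => by
    obtain ⟨m, rfl⟩ := Int.eq_ofNat_of_zero_le (show 0 ≤ z by omega)
    rw [toZ_nat]
    exact hq m (by exact_mod_cast hz))).toN 0
  have e : (fun k => ∑ i ∈ range (k + 1), A i * B (k - i)) = fun k : ℕ =>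
      ∑ s ∈ range (q + 1), toZ A (0 + (k : ℤ) - s) * toZ B s := by
    funext k
    have h1 := reindex A n k q hn B hq
    have h2 : ∑ i ∈ range n, A i * (if i ≤ k then B (k - i) else 0) =
        ∑ i ∈ range (n + (k + 1)), A i * (if i ≤ k then B (k - i) else 0) := by
      refine sum_subset (range_subset_range.2 (Nat.le_add_right _ _)) fun i _ hi => ?_
      rw [hn i (not_lt.1 fun h => hi (mem_range.2 h)), zero_mul]
    have h3 : ∑ i ∈ range (k + 1), A i * (if i ≤ k then B (k - i) else 0) =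
        ∑ i ∈ range (n + (k + 1)), A i * (if i ≤ k then B (k - i) else 0) := by
      refine sum_subset (range_subset_range.2 (Nat.le_add_left _ _)) fun i _ hi => ?_
      rw [if_neg (fun h => hi (mem_range.2 (Nat.lt_succ_iff.2 h))), mul_zero]
    have h4 : ∑ i ∈ range (k + 1), A i * (if i ≤ k then B (k - i) else 0) =
        ∑ i ∈ range (k + 1), A i * B (k - i) :=
      sum_congr rfl fun i hi => by rw [if_pos (Nat.lt_succ_iff.1 (mem_range.1 hi))]
    rw [← h4, h3, ← h2, h1]
    refine sum_congr rfl fun s _ => ?_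
    rw [zero_add, toZ_nat]
  rw [e]
  exact h

theorem sln_shift {f g : ℕ → ℝ} (hg : SLN g) (h0 : f 0 = 0) (h1 : ∀ k, f (k + 1) = g k) :
    SLN f := by
  have hn : ∀ i, 0 ≤ f i := by
    intro i
    rcases i with _ | i
    · rw [h0]
    · rw [h1]; exact hg.1 i
  refine ⟨hn, ?_⟩
  intro i j hij
  rcases i with _ | i
  · rw [h0, zero_mul]
    exact mul_nonneg (hn _) (hn _)
  · obtain ⟨j, rfl⟩ : ∃ j', j = j' + 1 := ⟨j - 1, by omega⟩
    rw [h1, h1, h1, h1]
    exact hg.2 i j (by omega)

/-- ordinal sums with separated labels at the junction -/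
theorem ordinal {le : ℕ → ℕ → Prop} {S T : Finset ℕ} (δ : ℕ) (hδ : δ = 0 ∨ δ = 1)
    (hPO : PO le (S ∪ T)) (hd : Disjoint S T)
    (hle : ∀ x ∈ S, ∀ y ∈ T, le x y)
    (hj : ∀ x ∈ S, (∀ z ∈ S, le x z → z = x) → ∀ y ∈ T, (∀ z ∈ T, le z y → z = y) →
      (if y < x then 1 else 0) = δ)
    (h1 : SLN (fun k => (nd le S k : ℝ))) (h2 : SLN (fun k => (nd le T k : ℝ))) :
    SLN (fun k => (nd le (S ∪ T) k : ℝ)) := by
  rcases S.eq_empty_or_nonempty with rfl | hS
  · rw [empty_union]; exact h2
  rcases T.eq_empty_or_nonempty with rfl | hT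
  · rw [union_empty]; exact h1
  have hO := Helper14.PE.pf_Ord le S T δ hPO hd hS hT hle hj
  have hc : SLN (fun k => ∑ i ∈ range (k + 1), (nd le S i : ℝ) * (nd le T (k - i) : ℝ)) :=
    sln_conv (A := fun k => (nd le S k : ℝ)) (B := fun k => (nd le T k : ℝ)) h1 h2
      (n := S.card) (q := T.card)
      (fun i hi => by
        show (nd le S i : ℝ) = 0
        rw [nd_zero hS hi, Nat.cast_zero])
      (fun i hi => by
        show (nd le T i : ℝ) = 0
        rw [nd_zero hT hi.le, Nat.cast_zero])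
  have hk : ∀ k, (nd le (S ∪ T) (k + δ) : ℝ) =
      ∑ i ∈ range (k + 1), (nd le S i : ℝ) * (nd le T (k - i) : ℝ) := by
    intro k
    rw [(hO k).1]
    push_cast
    rfl
  rcases hδ with rfl | rfl
  · have e : (fun k => (nd le (S ∪ T) k : ℝ)) =
        fun k => ∑ i ∈ range (k + 1), (nd le S i : ℝ) * (nd le T (k - i) : ℝ) := by
      funext k
      exact hk k
    rw [e]
    exact hc
  · refine sln_shift hc ?_ hk
    show (nd le (S ∪ T) 0 : ℝ) = 0
    rw [(hO 0).2 rfl, Nat.cast_zero]

/-- weak log-concavity of a labelled poset gives the strong form -/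
theorem strong_of_weak {le : ℕ → ℕ → Prop} {U : Finset ℕ} (hPO : PO le U)
    (h : ∀ k, nd le U k * nd le U (k + 2) ≤ nd le U (k + 1) ^ 2) :
    SLN (fun k => (nd le U k : ℝ)) := by
  refine ⟨fun i => Nat.cast_nonneg _, fun i j hij => ?_⟩
  have := pf_Strong (nd le U) h (fun i j k hij hjk hi hk => pf_Gap le U hPO i j k hij hjk hi hk)
    i j hij
  show (nd le U i : ℝ) * (nd le U (j + 2) : ℝ) ≤ (nd le U (i + 1) : ℝ) * (nd le U (j + 1) : ℝ)
  exact_mod_cast this

theorem nd_image {n m : ℕ} (le : Fin n → Fin n → Prop) (e : Fin m → Fin n) (he : StrictMono e)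
    (k : ℕ) : nd (leN le) ((univ.image e).image Fin.val) k =
      numExt (fun a b => le (e a) (e b)) k := by
  have hf : StrictMono (fun i : Fin m => (e i).val) := fun i j hij => he hij
  have h := Helper14.PE.pf_Relab m (leN le) (fun i : Fin m => (e i).val) hf k
  have e1 : (univ.image e).image Fin.val = univ.image (fun i : Fin m => (e i).val) := by
    rw [image_image]
    rfl
  have e2 : (fun a b : Fin m => leN le (e a).val (e b).val) = fun a b => le (e a) (e b) := by
    funext a b
    exact propext (leN_val le (e a) (e b))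
  rw [e1, h, e2]

theorem po_image {n : ℕ} {le : Fin n → Fin n → Prop} (hr : ∀ a, le a a)
    (ha : ∀ a b, le a b → le b a → a = b) (ht : ∀ a b c, le a b → le b c → le a c)
    (S : Finset (Fin n)) : PO (leN le) (S.image Fin.val) := by
  refine ⟨?_, ?_, ?_⟩
  · intro x hx
    obtain ⟨a, _, rfl⟩ := mem_image.1 hx
    exact (leN_val le a a).2 (hr a)
  · intro x hx y hy h1 h2
    obtain ⟨a, _, rfl⟩ := mem_image.1 hx
    obtain ⟨b, _, rfl⟩ := mem_image.1 hy
    rw [ha a b ((leN_val le a b).1 h1) ((leN_val le b a).1 h2)]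
  · intro x hx y hy z hz h1 h2
    obtain ⟨a, _, rfl⟩ := mem_image.1 hx
    obtain ⟨b, _, rfl⟩ := mem_image.1 hy
    obtain ⟨c, _, rfl⟩ := mem_image.1 hz
    exact (leN_val le a c).2 (ht a b c ((leN_val le a b).1 h1) ((leN_val le b c).1 h2))

/-- the restriction to the image of a strictly monotone map -/
theorem sln_base {n m : ℕ} {le : Fin n → Fin n → Prop} (hr : ∀ a, le a a)
    (ha : ∀ a b, le a b → le b a → a = b) (ht : ∀ a b c, le a b → le b c → le a c)
    (e : Fin m → Fin n) (he : StrictMono e)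
    (h : ∀ k, numExt (fun a b => le (e a) (e b)) k * numExt (fun a b => le (e a) (e b)) (k + 2) ≤
      numExt (fun a b => le (e a) (e b)) (k + 1) ^ 2) :
    SLN (fun k => (nd (leN le) ((univ.image e).image Fin.val) k : ℝ)) := by
  refine strong_of_weak (po_image hr ha ht _) fun k => ?_
  rw [nd_image le e he, nd_image le e he, nd_image le e he]
  exact h k

/-- width at most two -/
theorem sln_width {n : ℕ} {le : Fin n → Fin n → Prop} (hr : ∀ a, le a a)
    (ha : ∀ a b, le a b → le b a → a = b) (ht : ∀ a b c, le a b → le b c → le a c)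
    (S : Finset (Fin n))
    (hw : ∀ x ∈ S, ∀ y ∈ S, ∀ z ∈ S, x ≠ y → y ≠ z → x ≠ z →
      le x y ∨ le y x ∨ le y z ∨ le z y ∨ le x z ∨ le z x) :
    SLN (fun k => (nd (leN le) (S.image Fin.val) k : ℝ)) := by
  set e : Fin S.card → Fin n := fun i => S.orderEmbOfFin rfl i with hedef
  have he : StrictMono e := (S.orderEmbOfFin rfl).strictMono
  have himg : univ.image e = S := by
    ext x
    constructor
    · intro hx
      obtain ⟨i, _, rfl⟩ := mem_image.1 hx
      exact S.orderEmbOfFin_mem rfl i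
    · intro hx
      have : x ∈ Set.range (S.orderEmbOfFin rfl) := by
        rw [S.range_orderEmbOfFin rfl]; exact hx
      obtain ⟨i, hi⟩ := this
      exact mem_image.2 ⟨i, mem_univ _, hi⟩
  have hmem : ∀ i, e i ∈ S := fun i => S.orderEmbOfFin_mem rfl i
  have hinj := he.injective
  set le' : Fin S.card → Fin S.card → Prop := fun a b => le (e a) (e b) with hle'
  have hr' : ∀ a, le' a a := fun a => hr _
  have ha' : ∀ a b, le' a b → le' b a → a = b := fun a b h1 h2 => hinj (ha _ _ h1 h2)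
  have ht' : ∀ a b c, le' a b → le' b c → le' a c := fun a b c h1 h2 => ht _ _ _ h1 h2
  obtain ⟨C, _, hC1, hC2⟩ := Helper16.PEul.two_chains hr' ha' ht' S.card
    (Finset.univ : Finset (Fin S.card)) (Finset.card_fin _)
    (fun x _ y _ z _ h1 h2 h3 => hw (e x) (hmem x) (e y) (hmem y) (e z) (hmem z)
      (fun h => h1 (hinj h)) (fun h => h2 (hinj h)) (fun h => h3 (hinj h)))
  have hC2' : ∀ x ∉ C, ∀ y ∉ C, le' x y ∨ le' y x := fun x hx y hy =>
    hC2 x (Finset.mem_sdiff.2 ⟨Finset.mem_univ _, hx⟩) y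
      (Finset.mem_sdiff.2 ⟨Finset.mem_univ _, hy⟩)
  have key := sln_base hr ha ht e he (fun k => by
    have := Helper16.PEul.numExt_logconcave hr' ha' ht' C hC1 hC2' k 0
    rw [sq]
    exact this)
  rw [himg] at key
  exact key

theorem nd_univ {n : ℕ} (le : Fin n → Fin n → Prop) (k : ℕ) :
    nd (leN le) ((univ : Finset (Fin n)).image Fin.val) k = numExt le k := by
  have h := nd_image le (fun i : Fin n => i) (fun i j hij => hij) k
  have e1 : (univ : Finset (Fin n)).image (fun i : Fin n => i) = univ := by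
    ext x; simp
  rw [e1] at h
  exact h

end Pool.Agent.Helper50.PE
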