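import Pool.Agent.Helper50.PE.Defs

/-!
Statements of the modules.
-/

set_option autoImplicit false

namespace Pool.Agent.Helper50.PE

open Finset
open Pool.Agent.Helper16.PEul (IsExt des leN numExt)

/-- A4 -/
def StU : Prop := ∀ (M : ℕ) (b : ℕ → ℝ), SLN b → (∀ i, M < i → b i = 0) → SLN (Uop M b)

/-- A5 -/
def StD : Prop := ∀ (q : ℕ) (e : ℕ → ℝ), SLN e → (∀ i, q < i → e i = 0) → SLN (Dop q e)

/-- A6 -/
def StBeta : Prop := ∀ (p M : ℕ) (b : ℕ → ℝ), p ≤ M → SLN b → SLN (beta p M b)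

/-- A7 -/
def StLow : Prop := ∀ (q M : ℕ) (c : ℕ → ℝ), q ≤ M → SLN c → SLN (low q M c)

/-- A11 -/
def StSand : Prop := ∀ (M p q s t : ℕ), p ≤ M → q ≤ M → s ≤ q → t ≤ p →
  W p q s t * ((M + 1).choose (p + q + 1) : ℝ) ≤ WM M p q s t ∧
    WM M p q s t ≤ W p q s t * ((M + p + 1).choose (p + q + 1) : ℝ)

/-- A12 -/
def StLim : Prop := ∀ (p N : ℕ), Filter.Tendsto
  (fun M : ℕ => (((M + p + 1).choose N : ℝ)) / ((M + 1).choose N : ℝ)) Filter.atTop (nhds 1)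

/-- C2: the numbers of descents have no gaps -/
def StGap : Prop := ∀ (le : ℕ → ℕ → Prop) (U : Finset ℕ), PO le U → ∀ i j k : ℕ, i ≤ j → j ≤ k →
  0 < nd le U i → 0 < nd le U k → 0 < nd le U j

/-- C3: log-concavity without gaps is strong log-concavity -/
def StStrong : Prop := ∀ (A : ℕ → ℕ), (∀ k, A k * A (k + 2) ≤ A (k + 1) ^ 2) →
  (∀ i j k : ℕ, i ≤ j → j ≤ k → 0 < A i → 0 < A k → 0 < A j) →
  ∀ i j, i ≤ j → A i * A (j + 2) ≤ A (i + 1) * A (j + 1)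

/-- C4: the number of shuffles with `k` descents -/
def StShuf : Prop := ∀ (l m : List ℕ), l ≠ [] → m ≠ [] → l.Nodup → m.Nodup → (∀ x ∈ l, x ∉ m) →
  ∀ k, ((sh l m).filter (fun w => des w = k)).card =
    bsh (asc m + 1 + des l) (des m) k * bsh (asc l + 1 + des m) (des l) k

/-- C5: the words of a disjoint union are the shuffles -/
def StSplit : Prop := ∀ (le : ℕ → ℕ → Prop) (S T : Finset ℕ), Disjoint S T →
  (∀ x ∈ S, ∀ y ∈ T, ¬ le x y ∧ ¬ le y x) → ∀ k,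
  nd le (S ∪ T) k = ∑ l ∈ exts le S, ∑ m ∈ exts le T, ((sh l m).filter (fun w => des w = k)).card

/-- C7: strictly monotone relabelling -/
def StRelab : Prop := ∀ (n : ℕ) (le : ℕ → ℕ → Prop) (f : Fin n → ℕ), StrictMono f → ∀ k,
  nd le (univ.image f) k = numExt (fun a b : Fin n => le (f a) (f b)) k

/-- C8: ordinal sums; `δ` is the constant contribution of the junction -/
def StOrd : Prop := ∀ (le : ℕ → ℕ → Prop) (S T : Finset ℕ) (δ : ℕ), PO le (S ∪ T) → Disjoint S T →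
  S.Nonempty → T.Nonempty → (∀ x ∈ S, ∀ y ∈ T, le x y) →
  (∀ x ∈ S, (∀ z ∈ S, le x z → z = x) → ∀ y ∈ T, (∀ z ∈ T, le z y → z = y) →
    (if y < x then 1 else 0) = δ) →
  ∀ k, nd le (S ∪ T) (k + δ) = ∑ i ∈ range (k + 1), nd le S i * nd le T (k - i) ∧
    (δ = 1 → nd le (S ∪ T) 0 = 0)

end Pool.Agent.Helper50.PE
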