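import Pool.Agent.Helper50.PE.Basic
import Pool.Agent.Helper50.PE.St

/-!
The discretised array is strongly log-concave in each variable and log-submodular.
-/

set_option autoImplicit false

namespace Pool.Agent.Helper50.PE

open Finset

theorem choose_tp {a b s s' : ℕ} (hab : a ≤ b) (hs : s ≤ s') :
    a.choose s' * b.choose s ≤ a.choose s * b.choose s' := by
  rcases lt_or_ge a s' with h | h
  · rw [Nat.choose_eq_zero_of_lt h, zero_mul]; exact Nat.zero_le _
  have e1 : a.choose s' * s'.choose s = a.choose s * (a - s).choose (s' - s) := Nat.choose_mul hs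
  have e2 : b.choose s' * s'.choose s = b.choose s * (b - s).choose (s' - s) :=
    Nat.choose_mul hs
  have e3 : (a - s).choose (s' - s) ≤ (b - s).choose (s' - s) :=
    Nat.choose_le_choose _ (Nat.sub_le_sub_right hab s)
  have hp : 0 < s'.choose s := Nat.choose_pos hs
  refine Nat.le_of_mul_le_mul_right ?_ hp
  calc a.choose s' * b.choose s * s'.choose s
      = (a.choose s' * s'.choose s) * b.choose s := by ring
    _ = a.choose s * (a - s).choose (s' - s) * b.choose s := by rw [e1]
    _ ≤ a.choose s * (b - s).choose (s' - s) * b.choose s := by gcongr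
    _ = a.choose s * (b.choose s * (b - s).choose (s' - s)) := by ring
    _ = a.choose s * (b.choose s' * s'.choose s) := by rw [e2]
    _ = _ := by ring

theorem K_nonneg (M q I s : ℕ) : 0 ≤ K M q I s := by unfold K; positivity

theorem K_tp (M q : ℕ) {I I' s s' : ℕ} (hI : I ≤ I') (hs : s ≤ s') :
    K M q I s' * K M q I' s ≤ K M q I s * K M q I' s' := by
  have h1 : ((I.choose s' : ℝ) * (I'.choose s : ℝ)) ≤ (I.choose s : ℝ) * (I'.choose s' : ℝ) := by
    exact_mod_cast choose_tp hI hs
  have h2 : (((M - I').choose (q - s) : ℝ) * ((M - I).choose (q - s') : ℝ)) ≤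
      ((M - I').choose (q - s') : ℝ) * ((M - I).choose (q - s) : ℝ) := by
    exact_mod_cast choose_tp (Nat.sub_le_sub_left hI M) (Nat.sub_le_sub_left hs q)
  unfold K
  calc _ = ((I.choose s' : ℝ) * (I'.choose s : ℝ)) *
        (((M - I').choose (q - s) : ℝ) * ((M - I).choose (q - s') : ℝ)) := by ring
    _ ≤ ((I.choose s : ℝ) * (I'.choose s' : ℝ)) *
        (((M - I').choose (q - s') : ℝ) * ((M - I).choose (q - s) : ℝ)) :=
      mul_le_mul h1 h2 (by positivity) (by positivity)
    _ = _ := by ring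

theorem WM_nonneg (M p q s t : ℕ) : 0 ≤ WM M p q s t :=
  sum_nonneg fun _ _ => mul_nonneg (K_nonneg _ _ _ _) (K_nonneg _ _ _ _)

theorem cM_nonneg {M p q : ℕ} {a b : ℤ → ℝ} (ha : ∀ i, 0 ≤ a i) (hb : ∀ i, 0 ≤ b i) (k l : ℤ) :
    0 ≤ cM M p q a b k l :=
  sum_nonneg fun _ _ => sum_nonneg fun _ _ =>
    mul_nonneg (mul_nonneg (ha _) (WM_nonneg _ _ _ _ _)) (hb _)

theorem low_beta (M p q : ℕ) (b : ℕ → ℝ) {s : ℕ} (hs : s ≤ q) :
    low q M (beta p M b) s = ∑ t ∈ range (p + 1), WM M p q s t * b t := by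
  unfold low
  rw [if_pos hs]
  have : ∀ I ∈ range (M + 1), K M q I s * beta p M b I =
      ∑ t ∈ range (p + 1), K M q I s * K M p I t * b t := by
    intro I hI
    unfold beta
    rw [if_pos (Nat.lt_succ_iff.1 (mem_range.1 hI)), mul_sum]
    exact sum_congr rfl fun t _ => by ring
  rw [sum_congr rfl this, sum_comm]
  refine sum_congr rfl fun t _ => ?_
  unfold WM
  rw [sum_mul]

theorem low_zero (M q : ℕ) (c : ℕ → ℝ) {s : ℕ} (hs : q < s) : low q M c s = 0 := by
  unfold low
  rw [if_neg (not_le.2 hs)]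

theorem WM_symm (M p q s t : ℕ) : WM M p q s t = WM M q p t s := by
  unfold WM
  exact sum_congr rfl fun I _ => mul_comm _ _

theorem row_k (hB : StBeta) (hL : StLow) {M p q : ℕ} (hp : p ≤ M) (hq : q ≤ M) {a b : ℤ → ℝ}
    (ha : SLC a) (hb : SLC b) (l : ℤ) : SLC (fun k => cM M p q a b k l) := by
  have hE : SLN (low q M (beta p M (fun n : ℕ => b (l - p + n)))) :=
    hL q M _ hq (hB p M _ hp (hb.toN (l - p)))
  have := ha.conv hE.toZ q (fun z hz => toZ_neg _ hz) (fun z hz => by
    obtain ⟨n, rfl⟩ := Int.eq_ofNat_of_zero_le (show 0 ≤ z by omega)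
    rw [toZ_nat]
    exact low_zero M q _ (by exact_mod_cast hz))
  have e : (fun k : ℤ => ∑ s ∈ range (q + 1), a (k - s) *
      toZ (low q M (beta p M (fun n : ℕ => b (l - p + n)))) s) = fun k => cM M p q a b k l := by
    funext k
    unfold cM
    refine sum_congr rfl fun s hs => ?_
    rw [toZ_nat, low_beta M p q _ (Nat.lt_succ_iff.1 (mem_range.1 hs)), mul_sum]
    exact sum_congr rfl fun t _ => by ring
  rwa [e] at this

theorem row_l (hB : StBeta) (hL : StLow) {M p q : ℕ} (hp : p ≤ M) (hq : q ≤ M) {a b : ℤ → ℝ}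
    (ha : SLC a) (hb : SLC b) (k : ℤ) : SLC (fun l => cM M p q a b k l) := by
  have hE : SLN (low p M (beta q M (fun n : ℕ => a (k - (0 + n))))) :=
    hL p M _ hp (hB q M _ hq ((ha.reflect k).toN 0))
  have := hb.conv (hE.toZ.reflect p) p (fun z hz => by
      obtain ⟨n, hn⟩ := Int.eq_ofNat_of_zero_le (show 0 ≤ (p : ℤ) - z by omega)
      show toZ _ ((p : ℤ) - z) = 0
      rw [hn, toZ_nat]
      exact low_zero M p _ (by omega))
    (fun z hz => toZ_neg _ (by omega))
  have e : (fun l : ℤ => ∑ s ∈ range (p + 1), b (l - s) *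
      toZ (low p M (beta q M (fun n : ℕ => a (k - (0 + n))))) ((p : ℤ) - s)) =
      fun l => cM M p q a b k l := by
    funext l
    unfold cM
    rw [sum_comm]
    rw [← sum_range_reflect]
    refine sum_congr rfl fun t ht => ?_
    have ht' : t ≤ p := Nat.lt_succ_iff.1 (mem_range.1 ht)
    have e1 : (p : ℤ) - ((p + 1 - 1 - t : ℕ) : ℤ) = (t : ℤ) := by omega
    have e2 : l - ((p + 1 - 1 - t : ℕ) : ℤ) = l - p + t := by omega
    rw [e1, e2, toZ_nat, low_beta M q p _ ht', mul_sum]
    refine sum_congr rfl fun s _ => ?_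
    rw [WM_symm, zero_add]
    ring
  rwa [e] at this

theorem cM_eq (M p q : ℕ) (a b : ℤ → ℝ) (k l : ℤ) : cM M p q a b k l =
    ∑ I ∈ range (M + 1), (∑ s ∈ range (q + 1), a (k - s) * K M q I s) *
      (∑ t ∈ range (p + 1), K M p I t * b (l - p + t)) := by
  unfold cM WM
  have : ∀ I ∈ range (M + 1), (∑ s ∈ range (q + 1), a (k - s) * K M q I s) *
      (∑ t ∈ range (p + 1), K M p I t * b (l - p + t)) =
      ∑ s ∈ range (q + 1), ∑ t ∈ range (p + 1),
        a (k - s) * (K M q I s * K M p I t) * b (l - p + t) := by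
    intro I _
    rw [sum_mul_sum]
    refine sum_congr rfl fun s _ => sum_congr rfl fun t _ => ?_
    ring
  rw [sum_congr rfl this]
  symm
  rw [sum_comm]
  refine sum_congr rfl fun s _ => ?_
  rw [sum_comm]
  refine sum_congr rfl fun t _ => ?_
  rw [mul_sum, sum_mul]

theorem rr {M p q : ℕ} {a b : ℤ → ℝ} (ha : SLC a) (hb : SLC b) {k k' l l' : ℤ}
    (hk : k ≤ k') (hl : l ≤ l') :
    cM M p q a b k l * cM M p q a b k' l' ≤ cM M p q a b k l' * cM M p q a b k' l := by
  rw [cM_eq, cM_eq, cM_eq, cM_eq]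
  refine cb_rev (range (M + 1)) _ _ _ _ ?_ ?_
  · intro x _ y _ hxy
    exact cb (range (q + 1)) (fun s : ℕ => a (k - s)) (fun s : ℕ => a (k' - s))
      (fun s => K M q x s) (fun s => K M q y s)
      (fun s _ s' _ hs => by
        have : a (k - s') * a (k' - s) ≤ a (k - s) * a (k' - s') :=
          ha.minor' (by omega) (by omega) (by omega)
        exact this)
      (fun s _ s' _ hs => K_tp M q hxy hs)
  · intro x _ y _ hxy
    have := cb_rev (range (p + 1)) (fun t => K M p x t) (fun t => K M p y t)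
      (fun t : ℕ => b (l - p + t)) (fun t : ℕ => b (l' - p + t))
      (fun t _ t' _ ht => K_tp M p hxy ht)
      (fun t _ t' _ ht => by
        have : b (l - p + t) * b (l' - p + t') ≤ b (l - p + t') * b (l' - p + t) :=
          hb.minor' (by omega) (by omega) (by omega)
        exact this)
    rw [mul_comm (∑ t ∈ range (p + 1), K M p y t * b (l - p + t))]
    exact this

/-- the diagonal of the discretised array is strongly log-concave -/
theorem diagM (hB : StBeta) (hL : StLow) {M p q : ℕ} (hp : p ≤ M) (hq : q ≤ M) {a b : ℤ → ℝ}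
    (ha : SLC a) (hb : SLC b) : SLC (fun k => cM M p q a b k k) :=
  diag (fun k l => cM_nonneg ha.1 hb.1 k l) (row_k hB hL hp hq ha hb) (row_l hB hL hp hq ha hb)
    (fun _ _ _ _ hk hl => rr ha hb hk hl)

end Pool.Agent.Helper50.PE
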