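import Pool.Agent.Helper50.PE.Rows

/-!
The limit sequence is strongly log-concave.
-/

set_option autoImplicit false

namespace Pool.Agent.Helper50.PE

open Finset Filter

theorem W_nonneg (p q s t : ℕ) : 0 ≤ W p q s t := by unfold W; positivity

theorem cc_nonneg {p q : ℕ} {a b : ℤ → ℝ} (ha : ∀ i, 0 ≤ a i) (hb : ∀ i, 0 ≤ b i) (k : ℤ) :
    0 ≤ cc p q a b k :=
  sum_nonneg fun _ _ => sum_nonneg fun _ _ =>
    mul_nonneg (mul_nonneg (ha _) (W_nonneg _ _ _ _)) (hb _)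

theorem sand_lo (hS : StSand) {M p q : ℕ} (hp : p ≤ M) (hq : q ≤ M) {a b : ℤ → ℝ}
    (ha : ∀ i, 0 ≤ a i) (hb : ∀ i, 0 ≤ b i) (k : ℤ) :
    cc p q a b k * ((M + 1).choose (p + q + 1) : ℝ) ≤ cM M p q a b k k := by
  unfold cc cM
  rw [sum_mul]
  refine sum_le_sum fun s hs => ?_
  rw [sum_mul]
  refine sum_le_sum fun t ht => ?_
  have h := (hS M p q s t hp hq (Nat.lt_succ_iff.1 (mem_range.1 hs))
    (Nat.lt_succ_iff.1 (mem_range.1 ht))).1
  calc a (k - s) * W p q s t * b (k - p + t) * ((M + 1).choose (p + q + 1) : ℝ)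
      = a (k - s) * (W p q s t * ((M + 1).choose (p + q + 1) : ℝ)) * b (k - p + t) := by ring
    _ ≤ a (k - s) * WM M p q s t * b (k - p + t) :=
      mul_le_mul_of_nonneg_right (mul_le_mul_of_nonneg_left h (ha _)) (hb _)

theorem sand_hi (hS : StSand) {M p q : ℕ} (hp : p ≤ M) (hq : q ≤ M) {a b : ℤ → ℝ}
    (ha : ∀ i, 0 ≤ a i) (hb : ∀ i, 0 ≤ b i) (k : ℤ) :
    cM M p q a b k k ≤ cc p q a b k * ((M + p + 1).choose (p + q + 1) : ℝ) := by
  unfold cc cM
  rw [sum_mul]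
  refine sum_le_sum fun s hs => ?_
  rw [sum_mul]
  refine sum_le_sum fun t ht => ?_
  have h := (hS M p q s t hp hq (Nat.lt_succ_iff.1 (mem_range.1 hs))
    (Nat.lt_succ_iff.1 (mem_range.1 ht))).2
  calc a (k - s) * WM M p q s t * b (k - p + t)
      ≤ a (k - s) * (W p q s t * ((M + p + 1).choose (p + q + 1) : ℝ)) * b (k - p + t) :=
      mul_le_mul_of_nonneg_right (mul_le_mul_of_nonneg_left h (ha _)) (hb _)
    _ = _ := by ring

/-- the main analytic result: the sequence `cc` is strongly log-concave -/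
theorem ccSLC (hB : StBeta) (hL : StLow) (hS : StSand) (hLim : StLim) (p q : ℕ) {a b : ℤ → ℝ}
    (ha : SLC a) (hb : SLC b) : SLC (cc p q a b) := by
  refine ⟨cc_nonneg ha.1 hb.1, ?_⟩
  intro i j hij
  have hT : Tendsto (fun M : ℕ => cc p q a b i * cc p q a b j *
      (((M + p + 1).choose (p + q + 1) : ℝ) / ((M + 1).choose (p + q + 1) : ℝ)) ^ 2)
      atTop (nhds (cc p q a b i * cc p q a b j * 1 ^ 2)) :=
    ((hLim p (p + q + 1)).pow 2).const_mul _
  rw [one_pow, mul_one] at hT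
  refine ge_of_tendsto hT ?_
  filter_upwards [eventually_ge_atTop (p + q + 1)] with M hM
  have hp : p ≤ M := by omega
  have hq : q ≤ M := by omega
  have hX : (0 : ℝ) < ((M + 1).choose (p + q + 1) : ℝ) := by
    exact_mod_cast Nat.choose_pos (by omega)
  set X : ℝ := ((M + 1).choose (p + q + 1) : ℝ) with hXd
  set Y : ℝ := ((M + p + 1).choose (p + q + 1) : ℝ) with hYd
  have hY : 0 ≤ Y := by rw [hYd]; positivity
  have hD := (diagM hB hL hp hq ha hb).2 i j hij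
  have l1 := sand_lo hS hp hq ha.1 hb.1 (i - 1)
  have l2 := sand_lo hS hp hq ha.1 hb.1 (j + 1)
  have u1 := sand_hi hS hp hq ha.1 hb.1 i
  have u2 := sand_hi hS hp hq ha.1 hb.1 j
  have n1 := cc_nonneg (p := p) (q := q) ha.1 hb.1 (i - 1)
  have n2 := cc_nonneg (p := p) (q := q) ha.1 hb.1 (j + 1)
  have n3 := cc_nonneg (p := p) (q := q) ha.1 hb.1 i
  have n4 := cM_nonneg (M := M) (p := p) (q := q) ha.1 hb.1 (i - 1) (i - 1)
  have n5 := cM_nonneg (M := M) (p := p) (q := q) ha.1 hb.1 j j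
  have key : (cc p q a b (i - 1) * X) * (cc p q a b (j + 1) * X) ≤
      (cc p q a b i * Y) * (cc p q a b j * Y) :=
    (mul_le_mul l1 l2 (mul_nonneg n2 hX.le) n4).trans
      (hD.trans (mul_le_mul u1 u2 n5 (mul_nonneg n3 hY)))
  rw [div_pow, ← mul_div_assoc, le_div_iff₀ (by positivity)]
  calc _ = (cc p q a b (i - 1) * X) * (cc p q a b (j + 1) * X) := by ring
    _ ≤ _ := key
    _ = _ := by ring

end Pool.Agent.Helper50.PE
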